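import Mathlib

set_option autoImplicit false

namespace Pool.Agent.V11120.K9

open Set

/-! An explicit drawing of `K_9` on two planes with exactly one crossing. -/

def redL : List (ℕ × ℕ) := [(0, 1), (0, 2), (0, 3), (1, 2), (1, 3), (1, 4), (1, 5), (2, 3), (2, 4),
  (2, 5), (2, 6), (2, 7), (3, 4), (3, 7), (3, 8), (4, 5), (4, 6), (4, 8), (6, 7), (6, 8), (7, 8)]

def cc (u v : Fin 9) : Fin 2 :=
  if redL.contains (u.val, v.val) || redL.contains (v.val, u.val) then 0 else 1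

def px : Fin 2 → Fin 9 → ℤ := ![![3, 0, 2, 5, 8, 3, 5, 4, 7], ![6, 1, 0, 8, 2, 7, 7, 3, 1]]
def py : Fin 2 → Fin 9 → ℤ := ![![4, 0, 2, 7, 2, 1, 3, 5, 3], ![2, 8, 5, 2, 3, 1, 6, 6, 1]]

def orz (i : Fin 2) (a b c : Fin 9) : ℤ :=
  (px i b - px i a) * (py i c - py i a) - (py i b - py i a) * (px i c - px i a)

def S8 : List (Fin 2 × Fin 9 × Fin 9 × Fin 9 × Fin 9) :=
  [(1, 0, 6, 5, 7), (1, 6, 0, 5, 7), (1, 0, 6, 7, 5), (1, 6, 0, 7, 5),
   (1, 5, 7, 0, 6), (1, 5, 7, 6, 0), (1, 7, 5, 0, 6), (1, 7, 5, 6, 0)]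

def sepz (p q : ℤ) : Bool := !(decide (p = 0) && decide (q = 0)) && decide (0 ≤ p * q)

lemma cc_symm : ∀ u v : Fin 9, cc u v = cc v u := by decide +kernel

lemma G1 : ∀ i : Fin 2, ∀ a b : Fin 9, a = b ∨ px i a ≠ px i b ∨ py i a ≠ py i b := by decide +kernel

lemma G2 : ∀ i : Fin 2, ∀ a b w : Fin 9, a = b ∨ w = a ∨ w = b ∨ orz i a b w ≠ 0 := by decide +kernel

lemma G3 : ∀ i : Fin 2, ∀ a b u v : Fin 9, a = b ∨ u = v ∨ cc a b ≠ i ∨ cc u v ≠ i ∨
    (a = u ∧ b = v) ∨ (a = v ∧ b = u) ∨ (i, a, b, u, v) ∈ S8 ∨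
    sepz (orz i a b u) (orz i a b v) = true ∨ sepz (orz i u v a) (orz i u v b) = true := by
  decide +kernel

noncomputable def pp (i : Fin 2) (v : Fin 9) : ℂ := ⟨(px i v : ℝ), (py i v : ℝ)⟩

noncomputable def gg (i : Fin 2) (u v : Fin 9) (t : ℝ) : ℂ :=
  ⟨(1 - t) * (px i u : ℝ) + t * (px i v : ℝ), (1 - t) * (py i u : ℝ) + t * (py i v : ℝ)⟩

lemma pp_inj (i : Fin 2) : Function.Injective (pp i) := by
  intro a b h
  have h1 := congrArg Complex.re h
  have h2 := congrArg Complex.im h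
  simp only [pp] at h1 h2
  rcases G1 i a b with h3 | h3 | h3
  · exact h3
  · exact absurd (by exact_mod_cast h1) h3
  · exact absurd (by exact_mod_cast h2) h3

lemma gg_cont (i : Fin 2) (u v : Fin 9) : Continuous (gg i u v) := by
  have : gg i u v = fun t : ℝ => (((1 - t) * (px i u : ℝ) + t * (px i v : ℝ) : ℝ) : ℂ) +
      (((1 - t) * (py i u : ℝ) + t * (py i v : ℝ) : ℝ) : ℂ) * Complex.I := by
    funext t
    apply Complex.ext <;> simp [gg]
  rw [this]
  fun_prop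

lemma gg_zero (i : Fin 2) (u v : Fin 9) : gg i u v 0 = pp i u := by
  apply Complex.ext <;> simp [gg, pp]

lemma gg_one (i : Fin 2) (u v : Fin 9) : gg i u v 1 = pp i v := by
  apply Complex.ext <;> simp [gg, pp]

lemma gg_rev (i : Fin 2) (u v : Fin 9) (t : ℝ) : gg i v u t = gg i u v (1 - t) := by
  apply Complex.ext <;> simp [gg] <;> ring

lemma gg_inj (i : Fin 2) (u v : Fin 9) (huv : u ≠ v) (s t : ℝ) (h : gg i u v s = gg i u v t) :
    s = t := by
  have h1 := congrArg Complex.re h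
  have h2 := congrArg Complex.im h
  simp only [gg] at h1 h2
  rcases G1 i u v with h3 | h3 | h3
  · exact absurd h3 huv
  · have h4 : ((px i u : ℝ) - (px i v : ℝ)) ≠ 0 := sub_ne_zero.mpr (by exact_mod_cast h3)
    have h5 : (t - s) * ((px i u : ℝ) - (px i v : ℝ)) = 0 := by linarith
    rcases mul_eq_zero.mp h5 with h6 | h6
    · linarith
    · exact absurd h6 h4
  · have h4 : ((py i u : ℝ) - (py i v : ℝ)) ≠ 0 := sub_ne_zero.mpr (by exact_mod_cast h3)
    have h5 : (t - s) * ((py i u : ℝ) - (py i v : ℝ)) = 0 := by linarith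
    rcases mul_eq_zero.mp h5 with h6 | h6
    · linarith
    · exact absurd h6 h4

/-- the real determinant -/
noncomputable def orr (i : Fin 2) (a b : Fin 9) (x : ℂ) : ℝ :=
  ((px i b : ℝ) - px i a) * (x.im - py i a) - ((py i b : ℝ) - py i a) * (x.re - px i a)

lemma orr_self (i : Fin 2) (a b : Fin 9) (t : ℝ) : orr i a b (gg i a b t) = 0 := by
  simp only [orr, gg]; ring

lemma orr_pp (i : Fin 2) (a b c : Fin 9) : orr i a b (pp i c) = (orz i a b c : ℝ) := by
  simp only [orr, pp, orz]; push_cast; ring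

lemma orr_gg (i : Fin 2) (a b u v : Fin 9) (t : ℝ) :
    orr i a b (gg i u v t) = (1 - t) * (orz i a b u : ℝ) + t * (orz i a b v : ℝ) := by
  simp only [orr, gg, orz]; push_cast; ring

lemma gg_av (i : Fin 2) (u v : Fin 9) (huv : u ≠ v) (t : ℝ) (h0 : 0 < t) (h1 : t < 1) (w : Fin 9) :
    gg i u v t ≠ pp i w := by
  intro h
  by_cases hu : w = u
  · subst hu
    have := gg_inj i w v huv t 0 (h.trans (gg_zero i w v).symm)
    linarith
  by_cases hv : w = v
  · subst hv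
    have := gg_inj i u w huv t 1 (h.trans (gg_one i u w).symm)
    linarith
  have h2 := orr_self i u v t
  rw [h, orr_pp] at h2
  rcases G2 i u v w with h3 | h3 | h3 | h3
  · exact huv h3
  · exact hu h3
  · exact hv h3
  · exact h3 (by exact_mod_cast h2)

lemma sep_false {p q : ℤ} (h : sepz p q = true) {t : ℝ} (h0 : 0 < t) (h1 : t < 1)
    (he : (1 - t) * (p : ℝ) + t * (q : ℝ) = 0) : False := by
  simp only [sepz, Bool.and_eq_true, Bool.not_eq_true', Bool.and_eq_false_iff, decide_eq_false_iff_not,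
    decide_eq_true_eq] at h
  obtain ⟨h2, h3⟩ := h
  have h4 : (0 : ℝ) ≤ (p : ℝ) * q := by exact_mod_cast h3
  have h5 : (1 - t) * ((p : ℝ) * q) + t * ((q : ℝ) * q) = 0 := by
    have : ((1 - t) * (p : ℝ) + t * (q : ℝ)) * q = 0 := by rw [he]; ring
    linarith
  have h6 : (0 : ℝ) ≤ (1 - t) * ((p : ℝ) * q) := mul_nonneg (by linarith) h4
  have h7 : t * ((q : ℝ) * q) ≤ 0 := by linarith
  have h8 : (q : ℝ) * q ≤ 0 := by
    by_contra hc
    push Not at hc
    have := mul_pos h0 hc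
    linarith
  have h9 : (q : ℝ) = 0 := by
    have := mul_self_nonneg (q : ℝ)
    exact mul_self_eq_zero.mp (le_antisymm h8 this)
  have h10 : (p : ℝ) = 0 := by
    rw [h9] at he
    have : (1 - t) * (p : ℝ) = 0 := by linarith
    rcases mul_eq_zero.mp this with h11 | h11
    · linarith
    · exact h11
  rcases h2 with h2 | h2
  · exact h2 (by exact_mod_cast h10)
  · exact h2 (by exact_mod_cast h9)

noncomputable def x0 : ℂ := ⟨127 / 21, 46 / 21⟩

lemma cross_form (i : Fin 2) (a b u v : Fin 9) (hab : a ≠ b) (huv : u ≠ v) (h1 : cc a b = i)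
    (h2 : cc u v = i) (h3 : ¬ (a = u ∧ b = v)) (h4 : ¬ (a = v ∧ b = u)) (x : ℂ)
    (hs : ∃ s : ℝ, 0 < s ∧ s < 1 ∧ gg i a b s = x) (ht : ∃ t : ℝ, 0 < t ∧ t < 1 ∧ gg i u v t = x) :
    (i, a, b, u, v) ∈ S8 ∧ x = x0 := by
  obtain ⟨s, hs0, hs1, hs⟩ := hs
  obtain ⟨t, ht0, ht1, ht⟩ := ht
  have e1 : orr i a b x = 0 := by rw [← hs]; exact orr_self i a b s
  have e2 : orr i u v x = 0 := by rw [← ht]; exact orr_self i u v t
  rcases G3 i a b u v with h | h | h | h | h | h | h | h | h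
  · exact absurd h hab
  · exact absurd h huv
  · exact absurd h1 h
  · exact absurd h2 h
  · exact absurd h h3
  · exact absurd h h4
  · refine ⟨h, ?_⟩
    have hx : x.re = 127 / 21 ∧ x.im = 46 / 21 := by
      simp only [S8, List.mem_cons, List.not_mem_nil, or_false, Prod.mk.injEq] at h
      rcases h with ⟨rfl, rfl, rfl, rfl, rfl⟩ | ⟨rfl, rfl, rfl, rfl, rfl⟩ | ⟨rfl, rfl, rfl, rfl, rfl⟩ |
        ⟨rfl, rfl, rfl, rfl, rfl⟩ | ⟨rfl, rfl, rfl, rfl, rfl⟩ | ⟨rfl, rfl, rfl, rfl, rfl⟩ |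
        ⟨rfl, rfl, rfl, rfl, rfl⟩ | ⟨rfl, rfl, rfl, rfl, rfl⟩ <;>
      (have a0 : px 1 0 = 6 := by decide
       have a6 : px 1 6 = 7 := by decide
       have a5 : px 1 5 = 7 := by decide
       have a7 : px 1 7 = 3 := by decide
       have b0 : py 1 0 = 2 := by decide
       have b6 : py 1 6 = 6 := by decide
       have b5 : py 1 5 = 1 := by decide
       have b7 : py 1 7 = 6 := by decide
       simp only [orr, a0, a6, a5, a7, b0, b6, b5, b7] at e1 e2
       push_cast at e1 e2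
       constructor <;> linarith)
    exact Complex.ext hx.1 hx.2
  · exfalso
    rw [← ht, orr_gg] at e1
    exact sep_false h ht0 ht1 e1
  · exfalso
    rw [← hs, orr_gg] at e2
    exact sep_false h hs0 hs1 e2

end Pool.Agent.V11120.K9
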