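import Mathlib
import Pool.Agent.Helper770.VanKampen

set_option autoImplicit false

namespace Pool.Agent.V11120.K9

open Complex Set Pool.Agent.Helper770.VanKampen

/-- Van Kampen obstruction for the complete bipartite graph on three and three vertices. -/
theorem k33_joined (p : Fin 6 → ℂ) (S : Fin 6 → Fin 6 → Set ℂ)
    (hS : ∀ a b : Fin 6, a.val < 3 → 3 ≤ b.val → JoinedIn (S a b) (p a) (p b))
    (hdis : ∀ a b c d : Fin 6, a.val < 3 → 3 ≤ b.val → c.val < 3 → 3 ≤ d.val → a ≠ c → b ≠ d →
      Disjoint (S a b) (S c d)) : False := by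
  have hex : ∀ a b c : Fin 6, a.val < 3 → 3 ≤ b.val → c ≠ a → c ≠ b →
      ∃ x : Fin 6, ∃ y : Fin 6, (x.val < 3 ∧ 3 ≤ y.val) ∧ (c = x ∨ c = y) ∧ a ≠ x ∧ b ≠ y := by decide
  have hex2 : ∀ a c : Fin 6, a ≠ c → ∃ b : Fin 6, ∃ b' : Fin 6, (b.val < 3 ∧ 3 ≤ b'.val) ∧ (a = b ∨ a = b') ∧
      c ≠ b ∧ c ≠ b' := by decide
  classical
  let γ : Fin 6 → Fin 6 → ℝ → ℂ := fun a b =>
    if h : a.val < 3 ∧ 3 ≤ b.val then (hS a b h.1 h.2).somePath.extend else fun _ => 0
  have hγ : ∀ a b (h1 : a.val < 3) (h2 : 3 ≤ b.val), γ a b = (hS a b h1 h2).somePath.extend :=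
    fun a b h1 h2 => dif_pos ⟨h1, h2⟩
  have hmem : ∀ a b : Fin 6, a.val < 3 → 3 ≤ b.val → ∀ t, γ a b t ∈ S a b := by
    intro a b h1 h2 t
    rw [hγ a b h1 h2]
    have : (hS a b h1 h2).somePath.extend t ∈ Set.range (hS a b h1 h2).somePath.extend := ⟨t, rfl⟩
    rw [Path.extend_range] at this
    obtain ⟨s, hs⟩ := this
    rw [← hs]
    exact (hS a b h1 h2).somePath_mem s
  have hpmem : ∀ a b : Fin 6, a.val < 3 → 3 ≤ b.val → p a ∈ S a b ∧ p b ∈ S a b := fun a b h1 h2 =>
    ⟨(hS a b h1 h2).source_mem, (hS a b h1 h2).target_mem⟩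
  have hd : ∀ a b c d : Fin 6, a.val < 3 → 3 ≤ b.val → c.val < 3 → 3 ≤ d.val → a ≠ c → b ≠ d →
      ∀ s t, γ a b s ≠ γ c d t := by
    intro a b c d h1 h2 h3 h4 h5 h6 s t he
    exact Set.disjoint_left.mp (hdis a b c d h1 h2 h3 h4 h5 h6) (hmem a b h1 h2 s)
      (he ▸ hmem c d h3 h4 t)
  have hv : ∀ a b c : Fin 6, a < b → (a.val < 3 ∧ 3 ≤ b.val) → c ≠ a → c ≠ b → ∀ t, γ a b t ≠ p c := by
    intro a b c _ hab hca hcb t he
    obtain ⟨x, y, ⟨hx, hy⟩, hc, h1, h2⟩ := hex a b c hab.1 hab.2 hca hcb
    have hpc : p c ∈ S x y := by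
      rcases hc with rfl | rfl
      · exact (hpmem _ _ hx hy).1
      · exact (hpmem _ _ hx hy).2
    exact Set.disjoint_left.mp (hdis a b x y hab.1 hab.2 hx hy h1 h2) (hmem a b hab.1 hab.2 t) (he ▸ hpc)
  have hp : Function.Injective p := by
    intro a c hac
    by_contra hne
    obtain ⟨b, b', ⟨hb, hb'⟩, ha, h1, h2⟩ := hex2 a c hne
    have h0 : γ b b' 0 = p b := by rw [hγ _ _ hb hb']; simp
    have h1' : γ b b' 1 = p b' := by rw [hγ _ _ hb hb']; simp
    have hlt : b < b' := by rw [Fin.lt_def]; omega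
    rcases ha with rfl | rfl
    · exact hv _ _ c hlt ⟨hb, hb'⟩ h1 h2 0 (h0.trans hac)
    · exact hv _ _ c hlt ⟨hb, hb'⟩ h1 h2 1 (h1'.trans hac)
  obtain ⟨m, hm0⟩ := exists_labels p hp (fun a b => a.val < 3 ∧ 3 ≤ b.val) γ
    (fun a b _ h => by rw [hγ a b h.1 h.2]; exact (hS a b h.1 h.2).somePath.continuous_extend)
    (fun a b _ h => by rw [hγ a b h.1 h.2]; simp) (fun a b _ h => by rw [hγ a b h.1 h.2]; simp) hv
  have hm : ∀ a b c d : Fin 6, a.val < 3 → 3 ≤ b.val → c.val < 3 → 3 ≤ d.val →
      a ≠ c → a ≠ d → b ≠ c → b ≠ d → (∀ s t, γ a b s ≠ γ c d t) →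
      beta a b c d = m a b c + m a b d + m c d a + m c d b := by
    intro a b c d h1 h2 h3 h4 h5 h6 h7 h8 h9
    exact hm0 a b c d (by rw [Fin.lt_def]; omega) (by rw [Fin.lt_def]; omega) ⟨h1, h2⟩ ⟨h3, h4⟩ h5 h6 h7 h8 h9
  have h0 := hm 0 3 1 4 (by decide) (by decide) (by decide) (by decide) (by decide) (by decide) (by decide) (by decide) (hd _ _ _ _ (by decide) (by decide) (by decide) (by decide) (by decide) (by decide))
  rw [show beta (((0 : Fin 6))) 3 1 4 = 1 from by decide] at h0
  have h1 := hm 0 3 1 5 (by decide) (by decide) (by decide) (by decide) (by decide) (by decide) (by decide) (by decide) (hd _ _ _ _ (by decide) (by decide) (by decide) (by decide) (by decide) (by decide))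
  rw [show beta (((0 : Fin 6))) 3 1 5 = 1 from by decide] at h1
  have h2 := hm 0 4 1 3 (by decide) (by decide) (by decide) (by decide) (by decide) (by decide) (by decide) (by decide) (hd _ _ _ _ (by decide) (by decide) (by decide) (by decide) (by decide) (by decide))
  rw [show beta (((0 : Fin 6))) 4 1 3 = 0 from by decide] at h2
  have h3 := hm 0 4 1 5 (by decide) (by decide) (by decide) (by decide) (by decide) (by decide) (by decide) (by decide) (hd _ _ _ _ (by decide) (by decide) (by decide) (by decide) (by decide) (by decide))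
  rw [show beta (((0 : Fin 6))) 4 1 5 = 1 from by decide] at h3
  have h4 := hm 0 5 1 3 (by decide) (by decide) (by decide) (by decide) (by decide) (by decide) (by decide) (by decide) (hd _ _ _ _ (by decide) (by decide) (by decide) (by decide) (by decide) (by decide))
  rw [show beta (((0 : Fin 6))) 5 1 3 = 0 from by decide] at h4
  have h5 := hm 0 5 1 4 (by decide) (by decide) (by decide) (by decide) (by decide) (by decide) (by decide) (by decide) (hd _ _ _ _ (by decide) (by decide) (by decide) (by decide) (by decide) (by decide))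
  rw [show beta (((0 : Fin 6))) 5 1 4 = 0 from by decide] at h5
  have h6 := hm 0 3 2 4 (by decide) (by decide) (by decide) (by decide) (by decide) (by decide) (by decide) (by decide) (hd _ _ _ _ (by decide) (by decide) (by decide) (by decide) (by decide) (by decide))
  rw [show beta (((0 : Fin 6))) 3 2 4 = 1 from by decide] at h6
  have h7 := hm 0 3 2 5 (by decide) (by decide) (by decide) (by decide) (by decide) (by decide) (by decide) (by decide) (hd _ _ _ _ (by decide) (by decide) (by decide) (by decide) (by decide) (by decide))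
  rw [show beta (((0 : Fin 6))) 3 2 5 = 1 from by decide] at h7
  have h8 := hm 0 4 2 3 (by decide) (by decide) (by decide) (by decide) (by decide) (by decide) (by decide) (by decide) (hd _ _ _ _ (by decide) (by decide) (by decide) (by decide) (by decide) (by decide))
  rw [show beta (((0 : Fin 6))) 4 2 3 = 0 from by decide] at h8
  have h9 := hm 0 4 2 5 (by decide) (by decide) (by decide) (by decide) (by decide) (by decide) (by decide) (by decide) (hd _ _ _ _ (by decide) (by decide) (by decide) (by decide) (by decide) (by decide))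
  rw [show beta (((0 : Fin 6))) 4 2 5 = 1 from by decide] at h9
  have h10 := hm 0 5 2 3 (by decide) (by decide) (by decide) (by decide) (by decide) (by decide) (by decide) (by decide) (hd _ _ _ _ (by decide) (by decide) (by decide) (by decide) (by decide) (by decide))
  rw [show beta (((0 : Fin 6))) 5 2 3 = 0 from by decide] at h10
  have h11 := hm 0 5 2 4 (by decide) (by decide) (by decide) (by decide) (by decide) (by decide) (by decide) (by decide) (hd _ _ _ _ (by decide) (by decide) (by decide) (by decide) (by decide) (by decide))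
  rw [show beta (((0 : Fin 6))) 5 2 4 = 0 from by decide] at h11
  have h12 := hm 1 3 2 4 (by decide) (by decide) (by decide) (by decide) (by decide) (by decide) (by decide) (by decide) (hd _ _ _ _ (by decide) (by decide) (by decide) (by decide) (by decide) (by decide))
  rw [show beta (((1 : Fin 6))) 3 2 4 = 1 from by decide] at h12
  have h13 := hm 1 3 2 5 (by decide) (by decide) (by decide) (by decide) (by decide) (by decide) (by decide) (by decide) (hd _ _ _ _ (by decide) (by decide) (by decide) (by decide) (by decide) (by decide))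
  rw [show beta (((1 : Fin 6))) 3 2 5 = 1 from by decide] at h13
  have h14 := hm 1 4 2 3 (by decide) (by decide) (by decide) (by decide) (by decide) (by decide) (by decide) (by decide) (hd _ _ _ _ (by decide) (by decide) (by decide) (by decide) (by decide) (by decide))
  rw [show beta (((1 : Fin 6))) 4 2 3 = 0 from by decide] at h14
  have h15 := hm 1 4 2 5 (by decide) (by decide) (by decide) (by decide) (by decide) (by decide) (by decide) (by decide) (hd _ _ _ _ (by decide) (by decide) (by decide) (by decide) (by decide) (by decide))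
  rw [show beta (((1 : Fin 6))) 4 2 5 = 1 from by decide] at h15
  have h16 := hm 1 5 2 3 (by decide) (by decide) (by decide) (by decide) (by decide) (by decide) (by decide) (by decide) (hd _ _ _ _ (by decide) (by decide) (by decide) (by decide) (by decide) (by decide))
  rw [show beta (((1 : Fin 6))) 5 2 3 = 0 from by decide] at h16
  have h17 := hm 1 5 2 4 (by decide) (by decide) (by decide) (by decide) (by decide) (by decide) (by decide) (by decide) (hd _ _ _ _ (by decide) (by decide) (by decide) (by decide) (by decide) (by decide))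
  rw [show beta (((1 : Fin 6))) 5 2 4 = 0 from by decide] at h17
  have two : (2 : ZMod 2) = 0 := rfl
  have one : (1 : ZMod 2) = 0 := by
    linear_combination h0 + h1 + h2 + h3 + h4 + h5 + h6 + h7 + h8 + h9 + h10 + h11 + h12 + h13 + h14 + h15 + h16 + h17 + ((m 0 3 1 + m 0 3 2 + m 0 3 4 + m 0 3 5 + m 0 4 1 + m 0 4 2 + m 0 4 3 + m 0 4 5 + m 0 5 1 + m 0 5 2 + m 0 5 3 + m 0 5 4 + m 1 3 0 + m 1 3 2 + m 1 3 4 + m 1 3 5 + m 1 4 0 + m 1 4 2 + m 1 4 3 + m 1 4 5 + m 1 5 0 + m 1 5 2 + m 1 5 3 + m 1 5 4 + m 2 3 0 + m 2 3 1 + m 2 3 4 + m 2 3 5 + m 2 4 0 + m 2 4 1 + m 2 4 3 + m 2 4 5 + m 2 5 0 + m 2 5 1 + m 2 5 3 + m 2 5 4) - 4) * two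
  exact one_ne_zero one

end Pool.Agent.V11120.K9
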