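import Mathlib
import Pool.Agent.V11120.K9.VK

set_option autoImplicit false

namespace Pool.Agent.V11120.K9

open Set

/-- A drawing without crossings of the graph `E` on the vertices `0, …, 8`. -/
structure Arcs (E : ℕ → ℕ → Prop) (p : ℕ → ℂ) (γ : ℕ → ℕ → ℝ → ℂ) : Prop where
  inj : ∀ a b, a < 9 → b < 9 → p a = p b → a = b
  cont : ∀ a b, a < 9 → b < 9 → a ≠ b → E a b → ContinuousOn (γ a b) (Icc (0:ℝ) 1)
  start : ∀ a b, a < 9 → b < 9 → a ≠ b → E a b → γ a b 0 = p a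
  fin : ∀ a b, a < 9 → b < 9 → a ≠ b → E a b → γ a b 1 = p b
  av : ∀ a b, a < 9 → b < 9 → a ≠ b → E a b → ∀ t ∈ Ioo (0:ℝ) 1, ∀ w, w < 9 → γ a b t ≠ p w
  nc : ∀ a b c d, a < 9 → b < 9 → c < 9 → d < 9 → a ≠ b → c ≠ d → E a b → E c d →
    ¬ (a = c ∧ b = d) → ¬ (a = d ∧ b = c) →
    ∀ s ∈ Ioo (0:ℝ) 1, ∀ t ∈ Ioo (0:ℝ) 1, γ a b s ≠ γ c d t

/-- `E` can be drawn without crossings. -/
def Pl (E : ℕ → ℕ → Prop) : Prop := ∃ p γ, Arcs E p γ

lemma Pl.mono {E F : ℕ → ℕ → Prop} (h : Pl E)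
    (hF : ∀ a b, a < 9 → b < 9 → a ≠ b → F a b → E a b) : Pl F := by
  obtain ⟨p, γ, h⟩ := h
  refine ⟨p, γ, h.inj, ?_, ?_, ?_, ?_, ?_⟩
  · intro a b ha hb hab hE; exact h.cont a b ha hb hab (hF a b ha hb hab hE)
  · intro a b ha hb hab hE; exact h.start a b ha hb hab (hF a b ha hb hab hE)
  · intro a b ha hb hab hE; exact h.fin a b ha hb hab (hF a b ha hb hab hE)
  · intro a b ha hb hab hE; exact h.av a b ha hb hab (hF a b ha hb hab hE)
  · intro a b c d ha hb hc hd hab hcd hE hE'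
    exact h.nc a b c d ha hb hc hd hab hcd (hF a b ha hb hab hE) (hF c d hc hd hcd hE')

lemma Pl.comp {E : ℕ → ℕ → Prop} (h : Pl E) (g : ℕ → ℕ) (hg : ∀ a, a < 9 → g a < 9)
    (hi : ∀ a b, a < 9 → b < 9 → g a = g b → a = b) : Pl (fun a b => E (g a) (g b)) := by
  obtain ⟨p, γ, h⟩ := h
  have hne : ∀ a b, a < 9 → b < 9 → a ≠ b → g a ≠ g b := fun a b ha hb hab h' => hab (hi a b ha hb h')
  refine ⟨fun a => p (g a), fun a b => γ (g a) (g b), ?_, ?_, ?_, ?_, ?_, ?_⟩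
  · intro a b ha hb hab; exact hi a b ha hb (h.inj _ _ (hg a ha) (hg b hb) hab)
  · intro a b ha hb hab hE; exact h.cont _ _ (hg a ha) (hg b hb) (hne a b ha hb hab) hE
  · intro a b ha hb hab hE; exact h.start _ _ (hg a ha) (hg b hb) (hne a b ha hb hab) hE
  · intro a b ha hb hab hE; exact h.fin _ _ (hg a ha) (hg b hb) (hne a b ha hb hab) hE
  · intro a b ha hb hab hE t ht w hw
    exact h.av _ _ (hg a ha) (hg b hb) (hne a b ha hb hab) hE t ht _ (hg w hw)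
  · intro a b c d ha hb hc hd hab hcd hE hE' h1 h2
    refine h.nc _ _ _ _ (hg a ha) (hg b hb) (hg c hc) (hg d hd) (hne a b ha hb hab)
      (hne c d hc hd hcd) hE hE' ?_ ?_
    · rintro ⟨h3, h4⟩; exact h1 ⟨hi _ _ ha hc h3, hi _ _ hb hd h4⟩
    · rintro ⟨h3, h4⟩; exact h2 ⟨hi _ _ ha hd h3, hi _ _ hb hc h4⟩

variable {E : ℕ → ℕ → Prop} {p : ℕ → ℂ} {γ : ℕ → ℕ → ℝ → ℂ}

/-- The part of the drawing spanned by the vertices in `A`. -/
def T (E : ℕ → ℕ → Prop) (p : ℕ → ℂ) (γ : ℕ → ℕ → ℝ → ℂ) (A : ℕ → Prop) : Set ℂ :=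
  {z | (∃ a, a < 9 ∧ A a ∧ z = p a) ∨
    ∃ a b, a < 9 ∧ b < 9 ∧ a ≠ b ∧ E a b ∧ A a ∧ A b ∧ ∃ t ∈ Ioo (0:ℝ) 1, z = γ a b t}

lemma T_disj (h : Arcs E p γ) {A B : ℕ → Prop} (hd : ∀ a, A a → B a → False) :
    Disjoint (T E p γ A) (T E p γ B) := by
  rw [Set.disjoint_left]
  rintro z (⟨a, ha, hA, rfl⟩ | ⟨a, b, ha, hb, hab, hE, hA, hA', t, ht, rfl⟩) hz
  · rcases hz with ⟨c, hc, hB, he⟩ | ⟨c, d, hc, hd', hcd, hE', hB, hB', s, hs, he⟩
    · exact hd a hA (h.inj _ _ ha hc he ▸ hB)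
    · exact h.av c d hc hd' hcd hE' s hs a ha he.symm
  · rcases hz with ⟨c, hc, hB, he⟩ | ⟨c, d, hc, hd', hcd, hE', hB, hB', s, hs, he⟩
    · exact h.av a b ha hb hab hE t ht c hc he
    · refine h.nc a b c d ha hb hc hd' hab hcd hE hE' ?_ ?_ t ht s hs he
      · rintro ⟨rfl, -⟩; exact hd _ hA hB
      · rintro ⟨rfl, -⟩; exact hd _ hA hB'

lemma T_mono {A B : ℕ → Prop} (h : ∀ a, A a → B a) : T E p γ A ⊆ T E p γ B := by
  rintro z (⟨a, ha, hA, hz⟩ | ⟨a, b, ha, hb, hab, hE, hA, hA', ht⟩)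
  · exact Or.inl ⟨a, ha, h a hA, hz⟩
  · exact Or.inr ⟨a, b, ha, hb, hab, hE, h a hA, h b hA', ht⟩

lemma edge (h : Arcs E p γ) {A : ℕ → Prop} {x y : ℕ} (hx : x < 9) (hy : y < 9) (hxy : x ≠ y)
    (hE : E x y) (hA : A x) (hA' : A y) : JoinedIn (T E p γ A) (p x) (p y) := by
  have hc : IsPathConnected (γ x y '' Icc (0:ℝ) 1) := by
    refine IsPathConnected.image' ?_ (h.cont x y hx hy hxy hE)
    exact (convex_Icc 0 1).isPathConnected ⟨0, by norm_num, by norm_num⟩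
  have hj := hc.joinedIn (p x) ⟨0, by norm_num, h.start x y hx hy hxy hE⟩ (p y)
    ⟨1, by norm_num, h.fin x y hx hy hxy hE⟩
  refine hj.mono ?_
  rintro z ⟨t, ht, rfl⟩
  rcases ht.1.eq_or_lt with h0 | h0
  · left; exact ⟨x, hx, hA, by rw [← h0]; exact h.start x y hx hy hxy hE⟩
  · rcases ht.2.eq_or_lt with h1 | h1
    · left; exact ⟨y, hy, hA', by rw [h1]; exact h.fin x y hx hy hxy hE⟩
    · right; exact ⟨x, y, hx, hy, hxy, hE, hA, hA', t, ⟨h0, h1⟩, rfl⟩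

/-- the vertices with a given label are joined to the smallest one -/
lemma reach (h : Arcs E p γ) (k : ℕ) (hk9 : k ≤ 9) (lab par : ℕ → ℕ)
    (hroot : ∀ i, i < k → lab i = i)
    (hpar : ∀ v, k ≤ v → v < 9 → lab v < k → par v < v ∧ lab (par v) = lab v ∧ E (par v) v)
    (i : ℕ) (hi : i < k) :
    ∀ v, v < 9 → lab v = i → JoinedIn (T E p γ (fun a => lab a = i)) (p i) (p v) := by
  intro v
  induction v using Nat.strong_induction_on with
  | _ v ih =>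
    intro hv hl
    by_cases hvk : v < k
    · have : v = i := by rw [← hl, hroot v hvk]
      subst this
      exact JoinedIn.refl (Or.inl ⟨v, hv, hl, rfl⟩)
    · obtain ⟨h1, h2, h3⟩ := hpar v (by omega) hv (by omega)
      have hl2 : lab (par v) = i := by omega
      exact (ih (par v) h1 (by omega) hl2).trans (edge h (by omega) hv (by omega) h3 hl2 hl)

lemma link (h : Arcs E p γ) (k : ℕ) (hk9 : k ≤ 9) (lab par : ℕ → ℕ)
    (hroot : ∀ i, i < k → lab i = i)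
    (hpar : ∀ v, k ≤ v → v < 9 → lab v < k → par v < v ∧ lab (par v) = lab v ∧ E (par v) v)
    (i j : ℕ) (hi : i < k) (hj : j < k) (x y : ℕ) (hx : x < 9) (hy : y < 9) (hlx : lab x = i)
    (hly : lab y = j) (hij : i ≠ j) (hE : E x y) :
    JoinedIn (T E p γ (fun a => lab a = i ∨ lab a = j)) (p i) (p j) := by
  have h1 := (reach h k hk9 lab par hroot hpar i hi x hx hlx).mono
    (T_mono (fun a ha => Or.inl ha : ∀ a, lab a = i → lab a = i ∨ lab a = j))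
  have h2 := (reach h k hk9 lab par hroot hpar j hj y hy hly).mono
    (T_mono (fun a ha => Or.inr ha : ∀ a, lab a = j → lab a = i ∨ lab a = j))
  have hxy : x ≠ y := by rintro rfl; omega
  exact (h1.trans (edge h hx hy hxy hE (Or.inl hlx) (Or.inr hly))).trans h2.symm

/-- no model of `K_{3,3}` -/
theorem no33 (hE : ∀ a b, E a b → E b a) (h : Pl E) (lab par : ℕ → ℕ)
    (hroot : ∀ i, i < 6 → lab i = i)
    (hpar : ∀ v, 6 ≤ v → v < 9 → lab v < 6 → par v < v ∧ lab (par v) = lab v ∧ E (par v) v)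
    (hadj : ∀ i, i < 3 → ∀ j, j < 6 → 3 ≤ j → ∃ x, x < 9 ∧ ∃ y, y < 9 ∧ lab x = i ∧ lab y = j ∧ E x y) :
    False := by
  obtain ⟨p, γ, h⟩ := h
  refine k33_joined (fun a => p a.val)
    (fun a b => T E p γ (fun v => lab v = a.val ∨ lab v = b.val)) ?_ ?_
  · intro a b ha hb
    obtain ⟨x, hx, y, hy, h1, h2, h3⟩ := hadj a.val ha b.val b.isLt hb
    exact link h 6 (by norm_num) lab par hroot hpar a.val b.val a.isLt b.isLt x y hx hy h1 h2
      (by omega) h3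
  · intro a b c d ha hb hc hd hac hbd
    refine T_disj h ?_
    intro v hv hv'
    have h1 : a.val ≠ c.val := fun h => hac (Fin.ext h)
    have h2 : b.val ≠ d.val := fun h => hbd (Fin.ext h)
    omega

/-- no model of `K_5` -/
theorem no5 (hE : ∀ a b, E a b → E b a) (h : Pl E) (lab par : ℕ → ℕ)
    (hroot : ∀ i, i < 5 → lab i = i)
    (hpar : ∀ v, 5 ≤ v → v < 9 → lab v < 5 → par v < v ∧ lab (par v) = lab v ∧ E (par v) v)
    (hadj : ∀ i, i < 5 → ∀ j, j < 5 → i < j → ∃ x, x < 9 ∧ ∃ y, y < 9 ∧ lab x = i ∧ lab y = j ∧ E x y) :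
    False := by
  obtain ⟨p, γ, h⟩ := h
  refine Pool.Agent.Helper770.VanKampen.k5_joined (fun a => p a.val)
    (fun a b => T E p γ (fun v => lab v = a.val ∨ lab v = b.val)) ?_ ?_
  · intro a b hab
    obtain ⟨x, hx, y, hy, h1, h2, h3⟩ := hadj a.val a.isLt b.val b.isLt hab
    have : a.val < b.val := hab
    exact link h 5 (by norm_num) lab par hroot hpar a.val b.val a.isLt b.isLt x y hx hy h1 h2
      (by omega) h3
  · intro a b c d _ _ hac had hbc hbd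
    refine T_disj h ?_
    intro v hv hv'
    have h1 : a.val ≠ c.val := fun h => hac (Fin.ext h)
    have h2 : a.val ≠ d.val := fun h => had (Fin.ext h)
    have h3 : b.val ≠ c.val := fun h => hbc (Fin.ext h)
    have h4 : b.val ≠ d.val := fun h => hbd (Fin.ext h)
    omega

end Pool.Agent.V11120.K9
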