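import Mathlib
import Pool.Agent.V11120.K9.Topo

set_option autoImplicit false

namespace Pool.Agent.V11120.K9

open Set

/-! Bit operations, written with the raw functions on the natural numbers. -/

def tb (E i : ℕ) : Bool := Nat.beq (Nat.mod (Nat.shiftRight E i) 2) 1

lemma tb_eq (E i : ℕ) : tb E i = E.testBit i := by
  have h : tb E i = decide (E / 2 ^ i % 2 = 1) := by
    have h1 : Nat.mod (Nat.shiftRight E i) 2 = E / 2 ^ i % 2 := by
      show (E >>> i) % 2 = _
      rw [Nat.shiftRight_eq_div_pow]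
    rw [tb, h1]
    by_cases h2 : E / 2 ^ i % 2 = 1
    · rw [h2]; rfl
    · rw [decide_eq_false h2]
      have : E / 2 ^ i % 2 = 0 := by omega
      rw [this]; rfl
  rw [h, Nat.testBit_eq_decide_div_mod_eq]

def dg (σ a : ℕ) : ℕ := Nat.mod (Nat.shiftRight σ (Nat.mul 4 a)) 16

def bt (E σ a b : ℕ) : Bool := tb E (Nat.add (Nat.mul 9 (dg σ a)) (dg σ b))

lemma bt_eq (E σ a b : ℕ) : bt E σ a b = E.testBit (9 * dg σ a + dg σ b) := tb_eq _ _

def allIn (E σ : ℕ) : List (ℕ × ℕ) → Bool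
  | [] => true
  | x :: l => cond (bt E σ x.1 x.2) (allIn E σ l) false

lemma allIn_mem {E σ : ℕ} : ∀ {l : List (ℕ × ℕ)}, allIn E σ l = true →
    ∀ x ∈ l, E.testBit (9 * dg σ x.1 + dg σ x.2) = true
  | [], _, x, hx => by simp at hx
  | y :: l, h, x, hx => by
    rw [allIn] at h
    cases hb : bt E σ y.1 y.2
    · rw [hb] at h; simp at h
    · rw [hb] at h
      rcases List.mem_cons.mp hx with rfl | hx
      · rw [← bt_eq]; exact hb
      · exact allIn_mem h x hx

def ad (X a b : ℕ) : ℕ :=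
  Nat.lor (Nat.lor X (Nat.shiftLeft 1 (Nat.add (Nat.mul 9 a) b))) (Nat.shiftLeft 1 (Nat.add (Nat.mul 9 b) a))

/-- the bits of `X` are pairs of colour `c` -/
def Sub (X : ℕ) (col : ℕ → ℕ → Bool) (c : Bool) : Prop :=
  ∀ a b, a < 9 → b < 9 → X.testBit (9 * a + b) = true → col a b = c

lemma one_shift (i j : ℕ) : (Nat.shiftLeft 1 i).testBit j = decide (i = j) := by
  have : Nat.shiftLeft 1 i = 2 ^ i := by
    show (1 <<< i) = _
    rw [Nat.shiftLeft_eq, one_mul]
  rw [this, Nat.testBit_two_pow]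

lemma Sub.ad {X : ℕ} {col : ℕ → ℕ → Bool} {c : Bool} (h : Sub X col c)
    (hs : ∀ a b, col a b = col b a) {a b : ℕ} (ha : a < 9) (hb : b < 9) (hc : col a b = c) :
    Sub (ad X a b) col c := by
  intro x y hx hy hxy
  have h1 : (K9.ad X a b).testBit (9 * x + y) =
      ((X.testBit (9 * x + y) || decide (9 * a + b = 9 * x + y)) || decide (9 * b + a = 9 * x + y)) := by
    show ((X ||| Nat.shiftLeft 1 (9 * a + b)) ||| Nat.shiftLeft 1 (9 * b + a)).testBit (9 * x + y) = _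
    rw [Nat.testBit_or, Nat.testBit_or, one_shift, one_shift]
  rw [h1, Bool.or_eq_true, Bool.or_eq_true, decide_eq_true_eq, decide_eq_true_eq] at hxy
  rcases hxy with (h2 | h2) | h2
  · exact h x y hx hy h2
  · have e1 : x = a := by omega
    have e2 : y = b := by omega
    rw [e1, e2]; exact hc
  · have e1 : x = b := by omega
    have e2 : y = a := by omega
    rw [e1, e2, hs]; exact hc

lemma Sub.zero (col : ℕ → ℕ → Bool) (c : Bool) : Sub 0 col c := by
  intro a b _ _ h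
  simp at h

/-- the code of a colouring on a list of pairs -/
def enc (f : ℕ → ℕ → Bool) : List (ℕ × ℕ) → ℕ
  | [] => 0
  | x :: l => Nat.add (Nat.mul 2 (enc f l)) (cond (f x.1 x.2) 1 0)

def dec1 (k : ℕ) : List (ℕ × ℕ) → ℕ
  | [] => 0
  | x :: l => cond (Nat.beq (Nat.mod k 2) 1) (ad (dec1 (Nat.div k 2) l) x.1 x.2) (dec1 (Nat.div k 2) l)

def dec0 (k : ℕ) : List (ℕ × ℕ) → ℕ
  | [] => 0
  | x :: l => cond (Nat.beq (Nat.mod k 2) 1) (dec0 (Nat.div k 2) l) (ad (dec0 (Nat.div k 2) l) x.1 x.2)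

lemma enc_div (f : ℕ → ℕ → Bool) (x : ℕ × ℕ) (l : List (ℕ × ℕ)) :
    Nat.div (enc f (x :: l)) 2 = enc f l := by
  show (2 * enc f l + cond (f x.1 x.2) 1 0) / 2 = _
  cases f x.1 x.2 <;> simp <;> omega

lemma enc_mod (f : ℕ → ℕ → Bool) (x : ℕ × ℕ) (l : List (ℕ × ℕ)) :
    Nat.beq (Nat.mod (enc f (x :: l)) 2) 1 = f x.1 x.2 := by
  have : Nat.mod (enc f (x :: l)) 2 = cond (f x.1 x.2) 1 0 := by
    show (2 * enc f l + cond (f x.1 x.2) 1 0) % 2 = _
    cases f x.1 x.2 <;> simp [Nat.add_mod]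
  rw [this]
  cases f x.1 x.2 <;> rfl

lemma sub_dec1 {col : ℕ → ℕ → Bool} (hs : ∀ a b, col a b = col b a) :
    ∀ l : List (ℕ × ℕ), (∀ x ∈ l, x.1 < 9 ∧ x.2 < 9) → Sub (dec1 (enc col l) l) col true
  | [], _ => Sub.zero _ _
  | x :: l, h => by
    have ih := sub_dec1 hs l (fun y hy => h y (List.mem_cons_of_mem _ hy))
    rw [dec1, enc_mod, enc_div]
    have hx := h x List.mem_cons_self
    cases hc : col x.1 x.2
    · exact ih
    · exact ih.ad hs hx.1 hx.2 hc

lemma sub_dec0 {col : ℕ → ℕ → Bool} (hs : ∀ a b, col a b = col b a) :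
    ∀ l : List (ℕ × ℕ), (∀ x ∈ l, x.1 < 9 ∧ x.2 < 9) → Sub (dec0 (enc col l) l) col false
  | [], _ => Sub.zero _ _
  | x :: l, h => by
    have ih := sub_dec0 hs l (fun y hy => h y (List.mem_cons_of_mem _ hy))
    rw [dec0, enc_mod, enc_div]
    have hx := h x List.mem_cons_self
    cases hc : col x.1 x.2
    · exact ih.ad hs hx.1 hx.2 hc
    · exact ih

def pull (X σ : ℕ) : List (ℕ × ℕ) → ℕ
  | [] => 0
  | x :: l => Nat.add (Nat.mul 2 (pull X σ l)) (cond (bt X σ x.1 x.2) 1 0)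

lemma pull_eq {X σ : ℕ} {f : ℕ → ℕ → Bool} : ∀ l : List (ℕ × ℕ),
    (∀ x ∈ l, X.testBit (9 * dg σ x.1 + dg σ x.2) = f x.1 x.2) → pull X σ l = enc f l
  | [], _ => rfl
  | x :: l, h => by
    rw [pull, enc, pull_eq l (fun y hy => h y (List.mem_cons_of_mem _ hy)), bt_eq,
      h x List.mem_cons_self]

def orAll (σ : ℕ) : ℕ → ℕ
  | 0 => 0
  | a + 1 => Nat.lor (Nat.shiftLeft 1 (dg σ a)) (orAll σ a)

lemma orAll_testBit (σ j : ℕ) : ∀ m, (orAll σ m).testBit j = true ↔ ∃ a, a < m ∧ dg σ a = j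
  | 0 => by simp [orAll]
  | m + 1 => by
    have h1 : (orAll σ (m + 1)).testBit j = (decide (dg σ m = j) || (orAll σ m).testBit j) := by
      show (Nat.shiftLeft 1 (dg σ m) ||| orAll σ m).testBit j = _
      rw [Nat.testBit_or, one_shift]
    rw [h1, Bool.or_eq_true, decide_eq_true_eq, orAll_testBit σ j m]
    constructor
    · rintro (h | ⟨a, ha, h⟩)
      · exact ⟨m, by omega, h⟩
      · exact ⟨a, by omega, h⟩
    · rintro ⟨a, ha, h⟩
      by_cases h2 : a = m
      · left; rw [← h2]; exact h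
      · right; exact ⟨a, by omega, h⟩

def isPerm (σ m : ℕ) : Bool := Nat.beq (orAll σ m) (Nat.sub (Nat.shiftLeft 1 m) 1)

lemma isPerm_spec {σ m : ℕ} (h : isPerm σ m = true) :
    (∀ a, a < m → dg σ a < m) ∧ (∀ a b, a < m → b < m → dg σ a = dg σ b → a = b) := by
  have h1 : orAll σ m = 2 ^ m - 1 := by
    have := Nat.eq_of_beq_eq_true h
    rw [this]
    show (1 <<< m) - 1 = _
    rw [Nat.shiftLeft_eq, one_mul]
  have h2 : ∀ j, j < m ↔ ∃ a, a < m ∧ dg σ a = j := by
    intro j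
    rw [← orAll_testBit, h1, Nat.testBit_two_pow_sub_one, decide_eq_true_eq]
  have h3 : ∀ a, a < m → dg σ a < m := fun a ha => (h2 _).mpr ⟨a, ha, rfl⟩
  refine ⟨h3, ?_⟩
  let f : Fin m → Fin m := fun a => ⟨dg σ a.val, h3 a.val a.isLt⟩
  have hsurj : Function.Surjective f := by
    intro j
    obtain ⟨a, ha, haj⟩ := (h2 j.val).mp j.isLt
    exact ⟨⟨a, ha⟩, Fin.ext haj⟩
  have hinj : Function.Injective f := Finite.injective_iff_surjective.mpr hsurj
  intro a b ha hb hab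
  have := hinj (show f ⟨a, ha⟩ = f ⟨b, hb⟩ from Fin.ext hab)
  exact congrArg Fin.val this

/-- extension of a permutation of the first `m` numbers -/
def ext (σ m a : ℕ) : ℕ := if a < m then dg σ a else a

lemma ext_lt {σ m : ℕ} (hm : m ≤ 9) (h : isPerm σ m = true) (a : ℕ) (ha : a < 9) : ext σ m a < 9 := by
  unfold ext
  split_ifs with h1
  · exact lt_of_lt_of_le ((isPerm_spec h).1 a h1) hm
  · exact ha

lemma ext_inj {σ m : ℕ} (h : isPerm σ m = true) (a b : ℕ) (hab : ext σ m a = ext σ m b) : a = b := by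
  unfold ext at hab
  obtain ⟨h1, h2⟩ := isPerm_spec h
  split_ifs at hab with h3 h4 h4
  · exact h2 a b h3 h4 hab
  · have := h1 a h3; omega
  · have := h1 b h4; omega
  · exact hab

/-! Graphs that are not planar. -/

def NonPl (L : List (ℕ × ℕ)) : Prop :=
  ∀ E : ℕ → ℕ → Prop, (∀ a b, E a b → E b a) → Pl E → (∀ x ∈ L, E x.1 x.2) → False

def ok33 (L : List (ℕ × ℕ)) (lab par : ℕ → ℕ) : Bool :=
  (List.range 6).all (fun i => lab i == i) &&
  ((List.range 9).all (fun v => decide (v < 6) || (decide (6 ≤ lab v) ||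
    (decide (par v < v) && (lab (par v) == lab v && L.contains (par v, v))))) &&
  (List.range 3).all (fun i => (List.range 6).all (fun j => decide (j < 3) ||
    (List.range 9).any (fun x => (List.range 9).any (fun y =>
      lab x == i && (lab y == j && L.contains (x, y)))))))

def ok5 (L : List (ℕ × ℕ)) (lab par : ℕ → ℕ) : Bool :=
  (List.range 5).all (fun i => lab i == i) &&
  ((List.range 9).all (fun v => decide (v < 5) || (decide (5 ≤ lab v) ||
    (decide (par v < v) && (lab (par v) == lab v && L.contains (par v, v))))) &&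
  (List.range 5).all (fun i => (List.range 5).all (fun j => decide (j ≤ i) ||
    (List.range 9).any (fun x => (List.range 9).any (fun y =>
      lab x == i && (lab y == j && L.contains (x, y)))))))

lemma nonPl_33 {L : List (ℕ × ℕ)} {lab par : ℕ → ℕ} (h : ok33 L lab par = true) : NonPl L := by
  intro E hE hP hL
  simp only [ok33, Bool.and_eq_true, List.all_eq_true, List.mem_range, Bool.or_eq_true,
    decide_eq_true_eq, beq_iff_eq, List.contains_iff_mem, List.any_eq_true] at h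
  obtain ⟨h1, h2, h3⟩ := h
  refine no33 hE hP lab par h1 ?_ ?_
  · intro v hv hv9 hl
    rcases h2 v hv9 with h4 | h4 | ⟨h4, h5, h6⟩
    · omega
    · omega
    · exact ⟨h4, h5, hL _ h6⟩
  · intro i hi j hj hj3
    rcases h3 i hi j hj with h4 | ⟨x, hx, y, hy, h4, h5, h6⟩
    · omega
    · exact ⟨x, hx, y, hy, h4, h5, hL _ h6⟩

lemma nonPl_5 {L : List (ℕ × ℕ)} {lab par : ℕ → ℕ} (h : ok5 L lab par = true) : NonPl L := by
  intro E hE hP hL
  simp only [ok5, Bool.and_eq_true, List.all_eq_true, List.mem_range, Bool.or_eq_true,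
    decide_eq_true_eq, beq_iff_eq, List.contains_iff_mem, List.any_eq_true] at h
  obtain ⟨h1, h2, h3⟩ := h
  refine no5 hE hP lab par h1 ?_ ?_
  · intro v hv hv9 hl
    rcases h2 v hv9 with h4 | h4 | ⟨h4, h5, h6⟩
    · omega
    · omega
    · exact ⟨h4, h5, hL _ h6⟩
  · intro i hi j hj hij
    rcases h3 i hi j hj with h4 | ⟨x, hx, y, hy, h4, h5, h6⟩
    · omega
    · exact ⟨x, hx, y, hy, h4, h5, hL _ h6⟩

/-- decision trees over the colours of the pairs that contain the new vertex -/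
inductive Tr where
  /-- the red graph contains a copy of the graph `k` -/
  | C (k σ : ℕ)
  /-- the blue graph contains a copy of the graph `k` -/
  | D (k σ : ℕ)
  /-- the colouring is a relabelling of one in the list -/
  | M (σ : ℕ)
  /-- the same after exchanging the colours -/
  | W (σ : ℕ)
  /-- cases for the colour of the pair of `i` and the new vertex -/
  | N (i : ℕ) (l r : Tr)

inductive Bt where
  | e
  | b (k : ℕ) (t : Tr) (l r : Bt)

def Bt.mem : Bt → ℕ → Bool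
  | .e, _ => false
  | .b k _ l r, x => cond (Nat.beq x k) true (cond (Nat.ble x k) (Bt.mem l x) (Bt.mem r x))

section
variable (ty : ℕ → List (ℕ × ℕ)) (n : ℕ) (P : List (ℕ × ℕ)) (full : ℕ) (mem : ℕ → Bool)

def run : Tr → ℕ → ℕ → Bool
  | .C k σ, R, _ => cond (isPerm σ 9) (allIn R σ (ty k)) false
  | .D k σ, _, B => cond (isPerm σ 9) (allIn B σ (ty k)) false
  | .M σ, R, B => cond (isPerm σ (n + 1)) (cond (Nat.beq (Nat.lor R B) full) (mem (pull R σ P)) false) false
  | .W σ, R, B => cond (isPerm σ (n + 1)) (cond (Nat.beq (Nat.lor R B) full) (mem (pull B σ P)) false) false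
  | .N i l r, R, B => cond (Nat.ble (Nat.succ i) n)
      (cond (run l R (ad B i n)) (run r (ad R i n) B) false) false

def chk (Q : List (ℕ × ℕ)) : Bt → Bool
  | .e => true
  | .b k t l r => cond (run ty n P full mem t (dec1 k Q) (dec0 k Q))
      (cond (chk Q l) (chk Q r) false) false

end

lemma cond_f {a b : Bool} (h : cond a b false = true) : a = true ∧ b = true := by
  cases a <;> simp_all

lemma chk_mem {ty : ℕ → List (ℕ × ℕ)} {n : ℕ} {P : List (ℕ × ℕ)} {full : ℕ} {mem : ℕ → Bool}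
    {Q : List (ℕ × ℕ)} {x : ℕ} : ∀ t : Bt, chk ty n P full mem Q t = true → t.mem x = true →
    ∃ s : Tr, run ty n P full mem s (dec1 x Q) (dec0 x Q) = true
  | .e, _, h => by simp [Bt.mem] at h
  | .b k s l r, h, hm => by
    rw [chk] at h
    obtain ⟨h1, h2⟩ := cond_f h
    obtain ⟨h3, h4⟩ := cond_f h2
    rw [Bt.mem] at hm
    cases hb : Nat.beq x k
    · rw [hb] at hm
      cases hb2 : Nat.ble x k
      · rw [hb2] at hm; exact chk_mem r h4 hm
      · rw [hb2] at hm; exact chk_mem l h3 hm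
    · have := Nat.eq_of_beq_eq_true hb
      exact ⟨s, by rw [this]; exact h1⟩

/-- a colouring of the pairs with both colour classes drawn without crossings -/
def Good (col : ℕ → ℕ → Bool) : Prop :=
  (∀ a b, col a b = col b a) ∧ ∀ c, Pl (fun a b => col a b = c)

lemma Good.perm {col : ℕ → ℕ → Bool} (h : Good col) {σ m : ℕ} (hm : m ≤ 9) (hσ : isPerm σ m = true) :
    Good (fun a b => col (ext σ m a) (ext σ m b)) :=
  ⟨fun _ _ => h.1 _ _, fun c => (h.2 c).comp (ext σ m) (fun a ha => ext_lt hm hσ a ha)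
    (fun a b _ _ hab => ext_inj hσ a b hab)⟩

lemma Good.swap {col : ℕ → ℕ → Bool} (h : Good col) : Good (fun a b => !col a b) := by
  refine ⟨fun a b => by show (!col a b) = !col b a; rw [h.1 a b], fun c => (h.2 (!c)).mono ?_⟩
  intro a b _ _ _ hab
  rw [← hab]; simp

lemma cut {ty : ℕ → List (ℕ × ℕ)} (hty : ∀ k, NonPl (ty k)) {col : ℕ → ℕ → Bool} (h : Good col)
    {X : ℕ} {c : Bool} (hX : Sub X col c) {k σ : ℕ} (hσ : isPerm σ 9 = true)
    (hA : allIn X σ (ty k) = true) (h9 : ∀ x ∈ ty k, x.1 < 9 ∧ x.2 < 9) : False := by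
  have hg := h.perm (le_refl 9) hσ
  refine hty k (fun a b => col (ext σ 9 a) (ext σ 9 b) = c) ?_ (hg.2 c) ?_
  · intro a b hab; rw [h.1]; exact hab
  · intro x hx
    have h1 := allIn_mem hA x hx
    obtain ⟨h2, h3⟩ := h9 x hx
    have e1 : ext σ 9 x.1 = dg σ x.1 := if_pos h2
    have e2 : ext σ 9 x.2 = dg σ x.2 := if_pos h3
    show col (ext σ 9 x.1) (ext σ 9 x.2) = c
    rw [e1, e2]
    exact hX _ _ ((isPerm_spec hσ).1 _ h2) ((isPerm_spec hσ).1 _ h3) h1

lemma run_sound {ty : ℕ → List (ℕ × ℕ)} (hty : ∀ k, NonPl (ty k))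
    (h9 : ∀ k, ∀ x ∈ ty k, x.1 < 9 ∧ x.2 < 9) {n : ℕ} (hn : n + 1 ≤ 9) {P : List (ℕ × ℕ)}
    (hP : ∀ x ∈ P, x.1 < n + 1 ∧ x.2 < n + 1 ∧ x.1 ≠ x.2) {full : ℕ}
    (hfull : ∀ a, a < n + 1 → ∀ b, b < n + 1 → a ≠ b → full.testBit (9 * a + b) = true)
    {mem : ℕ → Bool} {col : ℕ → ℕ → Bool} (h : Good col) :
    ∀ (t : Tr) (R B : ℕ), Sub R col true → Sub B col false → run ty n P full mem t R B = true →
      ∃ col', Good col' ∧ mem (enc col' P) = true
  | .C k σ, R, B, hR, hB, hr => by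
    rw [run] at hr
    obtain ⟨h1, h2⟩ := cond_f hr
    exact (cut hty h hR h1 h2 (h9 k)).elim
  | .D k σ, R, B, hR, hB, hr => by
    rw [run] at hr
    obtain ⟨h1, h2⟩ := cond_f hr
    exact (cut hty h hB h1 h2 (h9 k)).elim
  | .M σ, R, B, hR, hB, hr => by
    rw [run] at hr
    obtain ⟨h1, h2⟩ := cond_f hr
    obtain ⟨h3, h4⟩ := cond_f h2
    refine ⟨_, h.perm hn h1, ?_⟩
    rw [← pull_eq P (X := R) (σ := σ)]
    · exact h4
    · intro x hx
      obtain ⟨hx1, hx2, hx3⟩ := hP x hx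
      have e1 : ext σ (n + 1) x.1 = dg σ x.1 := if_pos hx1
      have e2 : ext σ (n + 1) x.2 = dg σ x.2 := if_pos hx2
      rw [e1, e2]
      obtain ⟨g1, g2⟩ := isPerm_spec h1
      have hlt1 := g1 _ hx1
      have hlt2 := g1 _ hx2
      have hne : dg σ x.1 ≠ dg σ x.2 := fun he => hx3 (g2 _ _ hx1 hx2 he)
      cases hb : R.testBit (9 * dg σ x.1 + dg σ x.2)
      · have hf := hfull _ hlt1 _ hlt2 hne
        rw [← Nat.eq_of_beq_eq_true h3] at hf
        have hf' : (R ||| B).testBit (9 * dg σ x.1 + dg σ x.2) = true := hf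
        rw [Nat.testBit_or, hb, Bool.false_or] at hf'
        rw [hB _ _ (by omega) (by omega) hf']
      · rw [hR _ _ (by omega) (by omega) hb]
  | .W σ, R, B, hR, hB, hr => by
    rw [run] at hr
    obtain ⟨h1, h2⟩ := cond_f hr
    obtain ⟨h3, h4⟩ := cond_f h2
    refine ⟨_, (h.perm hn h1).swap, ?_⟩
    rw [← pull_eq P (X := B) (σ := σ)]
    · exact h4
    · intro x hx
      obtain ⟨hx1, hx2, hx3⟩ := hP x hx
      have e1 : ext σ (n + 1) x.1 = dg σ x.1 := if_pos hx1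
      have e2 : ext σ (n + 1) x.2 = dg σ x.2 := if_pos hx2
      show _ = !(col (ext σ (n + 1) x.1) (ext σ (n + 1) x.2))
      rw [e1, e2]
      obtain ⟨g1, g2⟩ := isPerm_spec h1
      have hlt1 := g1 _ hx1
      have hlt2 := g1 _ hx2
      have hne : dg σ x.1 ≠ dg σ x.2 := fun he => hx3 (g2 _ _ hx1 hx2 he)
      cases hb : B.testBit (9 * dg σ x.1 + dg σ x.2)
      · have hf := hfull _ hlt1 _ hlt2 hne
        rw [← Nat.eq_of_beq_eq_true h3] at hf
        have hf' : (R ||| B).testBit (9 * dg σ x.1 + dg σ x.2) = true := hf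
        rw [Nat.testBit_or, hb, Bool.or_false] at hf'
        rw [hR _ _ (by omega) (by omega) hf']; rfl
      · rw [hB _ _ (by omega) (by omega) hb]; rfl
  | .N i l r, R, B, hR, hB, hr => by
    rw [run] at hr
    obtain ⟨h1, h2⟩ := cond_f hr
    obtain ⟨h3, h4⟩ := cond_f h2
    have hi : i < n := Nat.le_of_ble_eq_true h1
    cases hc : col i n
    · exact run_sound hty h9 hn hP hfull h l _ _ hR (hB.ad h.1 (by omega) (by omega) hc) h3
    · exact run_sound hty h9 hn hP hfull h r _ _ (hR.ad h.1 (by omega) (by omega) hc) hB h4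

theorem step {ty : ℕ → List (ℕ × ℕ)} (hty : ∀ k, NonPl (ty k))
    (h9 : ∀ k, ∀ x ∈ ty k, x.1 < 9 ∧ x.2 < 9) {n : ℕ} (hn : n + 1 ≤ 9) {P Q : List (ℕ × ℕ)}
    (hP : ∀ x ∈ P, x.1 < n + 1 ∧ x.2 < n + 1 ∧ x.1 ≠ x.2)
    (hQ : ∀ x ∈ Q, x.1 < 9 ∧ x.2 < 9) {full : ℕ}
    (hfull : ∀ a, a < n + 1 → ∀ b, b < n + 1 → a ≠ b → full.testBit (9 * a + b) = true)
    {mem : ℕ → Bool} {t : Bt} (hc : chk ty n P full mem Q t = true)
    (h : ∃ col, Good col ∧ t.mem (enc col Q) = true) :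
    ∃ col, Good col ∧ mem (enc col P) = true := by
  obtain ⟨col, hg, hm⟩ := h
  obtain ⟨s, hs⟩ := chk_mem t hc hm
  exact run_sound hty h9 hn hP hfull hg s _ _ (sub_dec1 hg.1 Q hQ) (sub_dec0 hg.1 Q hQ) hs

end Pool.Agent.V11120.K9
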