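import Mathlib
import Pool.Agent.V11120.K9.Cert

set_option autoImplicit false

namespace Pool.Agent.V11120.K9

abbrev Ty := Bool × List (ℕ × ℕ) × List ℕ × List ℕ

def okE (e : Ty) : Bool :=
  cond e.1 (ok33 e.2.1 (fun v => e.2.2.1.getD v 9) (fun v => e.2.2.2.getD v 0))
    (ok5 e.2.1 (fun v => e.2.2.1.getD v 9) (fun v => e.2.2.2.getD v 0))

lemma okE_nonPl {e : Ty} (h : okE e = true) : NonPl e.2.1 := by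
  unfold okE at h
  cases hb : e.1
  · rw [hb] at h; exact nonPl_5 h
  · rw [hb] at h; exact nonPl_33 h

def e0 : Ty := (true, [(0, 6), (6, 3), (0, 4), (0, 5), (1, 3), (1, 4), (1, 5), (2, 3), (2, 4), (2, 5)], [0, 1, 2, 3, 4, 5, 0, 9, 9], [0, 0, 0, 0, 0, 0, 0, 0, 0])

def TY : List Ty := [
  (true, [(0, 6), (6, 3), (0, 4), (0, 5), (1, 3), (1, 4), (1, 5), (2, 3), (2, 4), (2, 5)], [0, 1, 2, 3, 4, 5, 0, 9, 9], [0, 0, 0, 0, 0, 0, 0, 0, 0]),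
  (true, [(0, 3), (0, 4), (0, 5), (1, 3), (1, 4), (1, 5), (2, 3), (2, 4), (2, 5)], [0, 1, 2, 3, 4, 5, 9, 9, 9], [0, 0, 0, 0, 0, 0, 0, 0, 0]),
  (true, [(0, 6), (6, 3), (0, 4), (0, 5), (1, 3), (1, 7), (7, 4), (1, 5), (2, 3), (2, 4), (2, 5)], [0, 1, 2, 3, 4, 5, 0, 1, 9], [0, 0, 0, 0, 0, 0, 0, 1, 0]),
  (true, [(0, 6), (6, 3), (0, 7), (7, 4), (0, 5), (1, 3), (1, 4), (1, 5), (2, 3), (2, 4), (2, 5)], [0, 1, 2, 3, 4, 5, 0, 0, 9], [0, 0, 0, 0, 0, 0, 0, 0, 0]),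
  (false, [(0, 5), (5, 1), (0, 2), (0, 3), (0, 4), (1, 2), (1, 3), (1, 4), (2, 3), (2, 4), (3, 4)], [0, 1, 2, 3, 4, 0, 9, 9, 9], [0, 0, 0, 0, 0, 0, 0, 0, 0]),
  (true, [(0, 6), (6, 7), (7, 3), (0, 4), (0, 5), (1, 3), (1, 4), (1, 5), (2, 3), (2, 4), (2, 5)], [0, 1, 2, 3, 4, 5, 0, 0, 9], [0, 0, 0, 0, 0, 0, 0, 6, 0]),
  (false, [(0, 5), (5, 1), (0, 2), (0, 3), (0, 4), (1, 2), (1, 3), (1, 4), (2, 6), (6, 3), (2, 4), (3, 4)], [0, 1, 2, 3, 4, 0, 2, 9, 9], [0, 0, 0, 0, 0, 0, 2, 0, 0]),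
  (false, [(0, 1), (0, 2), (0, 3), (0, 4), (1, 2), (1, 3), (1, 4), (2, 3), (2, 4), (3, 4)], [0, 1, 2, 3, 4, 9, 9, 9, 9], [0, 0, 0, 0, 0, 0, 0, 0, 0]),
  (false, [(0, 5), (5, 1), (0, 6), (6, 2), (0, 3), (0, 4), (1, 2), (1, 3), (1, 4), (2, 3), (2, 4), (3, 4)], [0, 1, 2, 3, 4, 0, 0, 9, 9], [0, 0, 0, 0, 0, 0, 0, 0, 0]),
  (true, [(0, 6), (6, 3), (0, 7), (7, 4), (0, 5), (1, 8), (8, 3), (1, 4), (1, 5), (2, 3), (2, 4), (2, 5)], [0, 1, 2, 3, 4, 5, 0, 0, 1], [0, 0, 0, 0, 0, 0, 0, 0, 1]),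
  (true, [(0, 6), (6, 3), (0, 7), (7, 4), (0, 5), (1, 3), (1, 4), (1, 8), (8, 5), (2, 3), (2, 4), (2, 5)], [0, 1, 2, 3, 4, 5, 0, 0, 1], [0, 0, 0, 0, 0, 0, 0, 0, 1]),
  (true, [(0, 6), (6, 7), (7, 3), (0, 4), (0, 5), (1, 3), (1, 8), (8, 4), (1, 5), (2, 3), (2, 4), (2, 5)], [0, 1, 2, 3, 4, 5, 0, 0, 1], [0, 0, 0, 0, 0, 0, 0, 6, 1]),
  (true, [(0, 6), (6, 7), (7, 3), (0, 8), (8, 4), (0, 5), (1, 3), (1, 4), (1, 5), (2, 3), (2, 4), (2, 5)], [0, 1, 2, 3, 4, 5, 0, 0, 0], [0, 0, 0, 0, 0, 0, 0, 6, 0]),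
  (false, [(0, 5), (5, 1), (0, 6), (6, 2), (0, 3), (0, 4), (1, 2), (1, 3), (1, 4), (2, 3), (2, 4), (3, 7), (7, 4)], [0, 1, 2, 3, 4, 0, 0, 3, 9], [0, 0, 0, 0, 0, 0, 0, 3, 0]),
  (false, [(0, 5), (5, 6), (6, 1), (0, 2), (0, 3), (0, 4), (1, 2), (1, 3), (1, 4), (2, 3), (2, 4), (3, 4)], [0, 1, 2, 3, 4, 0, 0, 9, 9], [0, 0, 0, 0, 0, 0, 5, 0, 0]),
  (false, [(0, 5), (5, 1), (0, 6), (6, 2), (0, 3), (0, 4), (1, 2), (1, 7), (7, 3), (1, 4), (2, 3), (2, 4), (3, 4)], [0, 1, 2, 3, 4, 0, 0, 1, 9], [0, 0, 0, 0, 0, 0, 0, 1, 0]),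
  (true, [(0, 6), (6, 3), (0, 4), (0, 5), (1, 3), (1, 7), (7, 4), (1, 5), (2, 3), (2, 4), (2, 8), (8, 5)], [0, 1, 2, 3, 4, 5, 0, 1, 2], [0, 0, 0, 0, 0, 0, 0, 1, 2]),
  (true, [(0, 6), (6, 3), (0, 7), (7, 4), (0, 8), (8, 5), (1, 3), (1, 4), (1, 5), (2, 3), (2, 4), (2, 5)], [0, 1, 2, 3, 4, 5, 0, 0, 0], [0, 0, 0, 0, 0, 0, 0, 0, 0]),
  (false, [(0, 5), (5, 6), (6, 1), (0, 2), (0, 3), (0, 4), (1, 2), (1, 3), (1, 4), (2, 7), (7, 3), (2, 4), (3, 4)], [0, 1, 2, 3, 4, 0, 0, 2, 9], [0, 0, 0, 0, 0, 0, 5, 2, 0]),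
  (true, [(0, 6), (6, 7), (7, 8), (8, 3), (0, 4), (0, 5), (1, 3), (1, 4), (1, 5), (2, 3), (2, 4), (2, 5)], [0, 1, 2, 3, 4, 5, 0, 0, 0], [0, 0, 0, 0, 0, 0, 0, 6, 7]),
  (false, [(0, 5), (5, 1), (0, 6), (6, 2), (0, 7), (7, 3), (0, 4), (1, 2), (1, 3), (1, 4), (2, 3), (2, 4), (3, 4)], [0, 1, 2, 3, 4, 0, 0, 0, 9], [0, 0, 0, 0, 0, 0, 0, 0, 0]),
  (false, [(0, 5), (5, 6), (6, 1), (0, 7), (7, 2), (0, 3), (0, 4), (1, 2), (1, 3), (1, 4), (2, 3), (2, 4), (3, 4)], [0, 1, 2, 3, 4, 0, 0, 0, 9], [0, 0, 0, 0, 0, 0, 5, 0, 0]),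
  (false, [(0, 5), (5, 1), (0, 6), (6, 2), (0, 3), (0, 4), (1, 7), (7, 2), (1, 3), (1, 4), (2, 3), (2, 4), (3, 4)], [0, 1, 2, 3, 4, 0, 0, 1, 9], [0, 0, 0, 0, 0, 0, 0, 1, 0]),
  (false, [(0, 5), (5, 6), (6, 1), (0, 2), (0, 3), (0, 4), (1, 2), (1, 3), (1, 4), (2, 7), (7, 3), (2, 8), (8, 4), (3, 4)], [0, 1, 2, 3, 4, 0, 0, 2, 2], [0, 0, 0, 0, 0, 0, 5, 2, 2]),
  (false, [(0, 5), (5, 1), (0, 6), (6, 2), (0, 7), (7, 3), (0, 4), (1, 8), (8, 2), (1, 3), (1, 4), (2, 3), (2, 4), (3, 4)], [0, 1, 2, 3, 4, 0, 0, 0, 1], [0, 0, 0, 0, 0, 0, 0, 0, 1]),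
  (false, [(0, 5), (5, 6), (6, 7), (7, 1), (0, 2), (0, 3), (0, 4), (1, 2), (1, 3), (1, 4), (2, 3), (2, 4), (3, 4)], [0, 1, 2, 3, 4, 0, 0, 0, 9], [0, 0, 0, 0, 0, 0, 5, 6, 0]),
  (false, [(0, 5), (5, 1), (0, 6), (6, 2), (0, 7), (7, 3), (0, 4), (1, 2), (1, 3), (1, 8), (8, 4), (2, 3), (2, 4), (3, 4)], [0, 1, 2, 3, 4, 0, 0, 0, 1], [0, 0, 0, 0, 0, 0, 0, 0, 1]),
  (false, [(0, 5), (5, 1), (0, 6), (6, 2), (0, 3), (0, 4), (1, 2), (1, 7), (7, 3), (1, 4), (2, 8), (8, 3), (2, 4), (3, 4)], [0, 1, 2, 3, 4, 0, 0, 1, 2], [0, 0, 0, 0, 0, 0, 0, 1, 2]),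
  (false, [(0, 5), (5, 6), (6, 1), (0, 7), (7, 2), (0, 3), (0, 4), (1, 2), (1, 3), (1, 4), (2, 3), (2, 4), (3, 8), (8, 4)], [0, 1, 2, 3, 4, 0, 0, 0, 3], [0, 0, 0, 0, 0, 0, 5, 0, 3]),
  (false, [(0, 5), (5, 1), (0, 6), (6, 2), (0, 3), (0, 4), (1, 7), (7, 2), (1, 3), (1, 4), (2, 3), (2, 4), (3, 8), (8, 4)], [0, 1, 2, 3, 4, 0, 0, 1, 3], [0, 0, 0, 0, 0, 0, 0, 1, 3]),
  (false, [(0, 5), (5, 6), (6, 1), (0, 7), (7, 2), (0, 3), (0, 4), (1, 2), (1, 3), (1, 4), (2, 8), (8, 3), (2, 4), (3, 4)], [0, 1, 2, 3, 4, 0, 0, 0, 2], [0, 0, 0, 0, 0, 0, 5, 0, 2]),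
  (false, [(0, 5), (5, 6), (6, 1), (0, 7), (7, 2), (0, 8), (8, 3), (0, 4), (1, 2), (1, 3), (1, 4), (2, 3), (2, 4), (3, 4)], [0, 1, 2, 3, 4, 0, 0, 0, 0], [0, 0, 0, 0, 0, 0, 5, 0, 0])]

lemma TY_ok : (TY.all okE && okE e0) = true := by decide +kernel

lemma TY_9 : (TY.all (fun e => e.2.1.all (fun x => decide (x.1 < 9) && decide (x.2 < 9))) &&
    e0.2.1.all (fun x => decide (x.1 < 9) && decide (x.2 < 9))) = true := by decide +kernel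

def tyl (k : ℕ) : List (ℕ × ℕ) := (TY.getD k e0).2.1

lemma getD_or {α : Type*} (l : List α) (k : ℕ) (d : α) : l.getD k d ∈ l ∨ l.getD k d = d := by
  rw [List.getD_eq_getElem?_getD]
  by_cases h : k < l.length
  · left; rw [List.getElem?_eq_getElem h]; simp
  · right; rw [List.getElem?_eq_none (by omega)]; rfl

lemma tyl_nonPl (k : ℕ) : NonPl (tyl k) := by
  have h := TY_ok
  rw [Bool.and_eq_true, List.all_eq_true] at h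
  unfold tyl
  rcases getD_or TY k e0 with h1 | h1
  · exact okE_nonPl (h.1 _ h1)
  · rw [h1]; exact okE_nonPl h.2

lemma tyl_9 (k : ℕ) : ∀ x ∈ tyl k, x.1 < 9 ∧ x.2 < 9 := by
  have h := TY_9
  rw [Bool.and_eq_true, List.all_eq_true] at h
  unfold tyl
  rcases getD_or TY k e0 with h1 | h1
  · have h2 := h.1 _ h1
    intro x hx
    have h3 := List.all_eq_true.mp h2 x hx
    rw [Bool.and_eq_true, decide_eq_true_eq, decide_eq_true_eq] at h3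
    exact h3
  · rw [h1]
    intro x hx
    have h3 := List.all_eq_true.mp h.2 x hx
    rw [Bool.and_eq_true, decide_eq_true_eq, decide_eq_true_eq] at h3
    exact h3

def P1 : List (ℕ × ℕ) := []
def F1 : ℕ := 0
def P2 : List (ℕ × ℕ) := [(0, 1)]
def F2 : ℕ := 514
def P3 : List (ℕ × ℕ) := [(0, 1), (0, 2), (1, 2)]
def F3 : ℕ := 788998
def P4 : List (ℕ × ℕ) := [(0, 1), (0, 2), (1, 2), (0, 3), (1, 3), (2, 3)]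
def F4 : ℕ := 942414350
def P5 : List (ℕ × ℕ) := [(0, 1), (0, 2), (1, 2), (0, 3), (1, 3), (2, 3), (0, 4), (1, 4), (2, 4), (3, 4)]
def F5 : ℕ := 1033886251550
def P6 : List (ℕ × ℕ) := [(0, 1), (0, 2), (1, 2), (0, 3), (1, 3), (2, 3), (0, 4), (1, 4), (2, 4), (3, 4), (0, 5), (1, 5), (2, 5), (3, 5), (4, 5)]
def F6 : ℕ := 1093952747633214
def P7 : List (ℕ × ℕ) := [(0, 1), (0, 2), (1, 2), (0, 3), (1, 3), (2, 3), (0, 4), (1, 4), (2, 4), (3, 4), (0, 5), (1, 5), (2, 5), (3, 5), (4, 5), (0, 6), (1, 6), (2, 6), (3, 6), (4, 6), (5, 6)]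
def F7 : ℕ := 1138257265311939198
def P8 : List (ℕ × ℕ) := [(0, 1), (0, 2), (1, 2), (0, 3), (1, 3), (2, 3), (0, 4), (1, 4), (2, 4), (3, 4), (0, 5), (1, 5), (2, 5), (3, 5), (4, 5), (0, 6), (1, 6), (2, 6), (3, 6), (4, 6), (5, 6), (0, 7), (1, 7), (2, 7), (3, 7), (4, 7), (5, 7), (6, 7)]
def F8 : ℕ := 1174816861368016042750
def P9 : List (ℕ × ℕ) := [(0, 1), (0, 2), (1, 2), (0, 3), (1, 3), (2, 3), (0, 4), (1, 4), (2, 4), (3, 4), (0, 5), (1, 5), (2, 5), (3, 5), (4, 5), (0, 6), (1, 6), (2, 6), (3, 6), (4, 6), (5, 6), (0, 7), (1, 7), (2, 7), (3, 7), (4, 7), (5, 7), (6, 7), (0, 8), (1, 8), (2, 8), (3, 8), (4, 8), (5, 8), (6, 8), (7, 8)]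
def F9 : ℕ := 1207744073945406663293950

end Pool.Agent.V11120.K9
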