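import Mathlib
import Pool.Agent.V11120.K9.Types

set_option autoImplicit false
set_option maxRecDepth 100000

namespace Pool.Agent.V11120.K9

def c2_0 : Bt := (.b 0 (.N 0 (.N 1 (.M 528) (.M 528)) (.N 1 (.M 513) (.W 258))) .e
  .e)

def b2 : Bt := c2_0

end Pool.Agent.V11120.K9
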