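import Mathlib
import Pool.Agent.V11120.K9.Types

set_option autoImplicit false
set_option maxRecDepth 100000

namespace Pool.Agent.V11120.K9

def c3_0 : Bt := (.b 4 (.N 0 (.N 1 (.N 2 (.M 8496) (.W 8976)) (.N 2 (.W 4896) (.M 12816))) (.N 1 (.N 2 (.M 12816) (.M 12816)) (.N 2 (.M 12576) (.M 531)))) (.b 0 (.N 0 (.N 1 (.N 2 (.M 12816) (.M 12816)) (.N 2 (.M 12576) (.W 12816))) (.N 1 (.N 2 (.M 12321) (.W 12801)) (.N 2 (.W 12546) (.W 8451)))) .e
  .e)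
  .e)

def b3 : Bt := c3_0

end Pool.Agent.V11120.K9
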