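import Mathlib
import Pool.Agent.V11120.K9.Types

set_option autoImplicit false
set_option maxRecDepth 100000

namespace Pool.Agent.V11120.K9

def c4_0 : Bt := (.b 32 (.N 0 (.N 1 (.N 2 (.N 3 (.W 205840) (.M 213520)) (.N 3 (.M 148240) (.M 274960))) (.N 2 (.N 3 (.M 274960) (.M 274960)) (.N 3 (.M 271120) (.M 78400)))) (.N 1 (.N 2 (.N 3 (.M 274945) (.M 274945)) (.N 3 (.M 271105) (.M 12865))) (.N 2 (.N 3 (.M 266290) (.M 66340)) (.N 3 (.M 66100) (.M 66610))))) (.b 12 (.N 0 (.N 1 (.N 2 (.N 3 (.M 205060) (.M 213025)) (.N 3 (.M 147760) (.M 274960))) (.N 2 (.N 3 (.M 82480) (.M 274720)) (.N 3 (.W 270640) (.W 274465)))) (.N 1 (.N 2 (.N 3 (.M 17185) (.W 274465)) (.N 3 (.M 270385) (.W 270640))) (.N 2 (.N 3 (.M 266290) (.W 266800)) (.N 3 (.W 262945) (.M 205060))))) (.b 0 (.N 0 (.N 1 (.N 2 (.N 3 (.D 7 36344967696) (.W 274960)) (.N 3 (.W 271120) (.M 274960)))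 (.N 2 (.N 3 (.W 267040) (.M 274720)) (.N 3 (.M 270640) (.W 274960)))) (.N 1 (.N 2 (.N 3 (.W 262945) (.M 274465)) (.N 3 (.M 270385) (.W 274945))) (.N 2 (.N 3 (.M 266290) (.W 274690)) (.N 3 (.W 270595) (.W 205060))))) .e
  .e)
  (.b 15 (.N 0 (.N 1 (.N 2 (.N 3 (.M 205060) (.W 13345)) (.N 3 (.M 9265) (.W 82720))) (.N 2 (.N 3 (.M 5170) (.W 148240)) (.N 3 (.W 136195) (.W 205120)))) (.N 1 (.N 2 (.N 3 (.M 274465) (.M 148240)) (.N 3 (.W 147760) (.W 201760))) (.N 2 (.N 3 (.W 82480) (.W 205840)) (.N 3 (.M 213520) (.W 205120))))) .e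
  .e))
  (.b 52 (.N 0 (.N 1 (.N 2 (.N 3 (.M 205120) (.M 270640)) (.N 3 (.M 274720) (.W 204865))) (.N 2 (.N 3 (.M 274960) (.W 200770)) (.N 3 (.W 135235) (.M 274960)))) (.N 1 (.N 2 (.N 3 (.W 205120) (.W 213025)) (.N 3 (.W 147505) (.W 205120))) (.N 2 (.N 3 (.W 81970) (.W 201280)) (.N 3 (.W 136000) (.M 12820))))) (.b 44 (.N 0 (.N 1 (.N 2 (.N 3 (.M 205060) (.M 262675)) (.N 3 (.M 267010) (.M 205060))) (.N 2 (.N 3 (.M 143680) (.M 4930)) (.N 3 (.W 143425) (.W 270640)))) (.N 1 (.N 2 (.N 3 (.M 204865) (.W 205120)) (.N 3 (.M 66115) (.W 274465))) (.N 2 (.N 3 (.M 274960) (.W 4675)) (.N 3 (.W 66370) (.W 4900))))) .e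
  .e)
  .e))

def b4 : Bt := c4_0

end Pool.Agent.V11120.K9
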