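import Mathlib
import Pool.Agent.V11120.K9.Types

set_option autoImplicit false
set_option maxRecDepth 100000

namespace Pool.Agent.V11120.K9

def c5_0 : Bt := (.b 295 (.N 0 (.N 1 (.N 2 (.N 3 (.N 4 (.M 4399365) (.M 3428880)) (.N 4 (.M 4411920) (.W 5517570))) (.N 3 (.N 4 (.W 1070130) (.M 3282240)) (.N 4 (.M 4330800) (.W 5309490)))) (.N 2 (.N 3 (.N 4 (.M 336195) (.M 5456400)) (.N 4 (.M 5517840) (.M 4395600))) (.N 3 (.N 4 (.M 4395600) (.M 275025)) (.N 4 (.M 213585) (.M 4411425))))) (.N 1 (.N 2 (.N 3 (.N 4 (.M 1384515) (.M 5456385)) (.N 4 (.M 5517825) (.M 4391505))) (.N 3 (.N 4 (.M 4391505) (.M 1323600)) (.N 4 (.M 1262160) (.M 4411680)))) (.N 2 (.N 3 (.N 4 (.W 1058115) (.M 3280965)) (.N 4 (.M 4329525) (.M 1065810))) (.N 3 (.N 4 (.W 4411650) (.W 5456130)) (.N 4 (.W 5517570) (.W 4395090)))))) (.b 222 (.N 2 (.N 0 (.N 1 (.N 3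 (.N 4 (.M 4399365) (.M 3297540)) (.N 4 (.M 4346115) (.M 2442000))) (.N 3 (.N 4 (.M 5517825) (.M 3293445)) (.N 4 (.M 4337925) (.W 136245)))) (.N 1 (.N 3 (.N 4 (.M 5517840) (.M 3293205)) (.N 4 (.M 4337685) (.W 1180725))) (.N 3 (.N 4 (.M 1070130) (.M 5517840)) (.N 4 (.M 5456400) (.W 5517570))))) (.N 3 (.N 0 (.N 1 (.N 4 (.M 4411650) (.M 3490320)) (.N 4 (.M 4399365) (.W 201765))) (.N 1 (.N 4 (.M 4399125) (.W 1246245)) (.N 4 (.M 5391120) (.W 5513475)))) (.N 4 (.N 0 (.N 1 (.M 4534800) (.W 267045)) (.N 1 (.W 1311525) (.W 5447940))) (.C 1 36343850256)))) (.b 160 (.N 0 (.N 1 (.N 4 (.D 1 36344898576) (.N 2 (.N 3 (.D 1 36344959776) (.M 5517840)) (.N 3 (.M 5514000) (.M 5325600)))) (.N 2 (.N 3 (.D 1 36344959776) (.N 4 (.M 5444640) (.M 5387280))) (.N 3 (.N 4 (.M 5379120) (.M 5448720)) (.N 4 (.M 5509920) (.M 4399440))))) (.N 1 (.N 2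 (.N 3 (.N 4 (.M 5517840) (.W 3294480)) (.N 4 (.W 4273440) (.M 275745))) (.N 3 (.N 4 (.W 4269360) (.M 271665)) (.N 4 (.M 205845) (.M 267570)))) (.N 2 (.N 3 (.N 4 (.W 3282240) (.M 267045)) (.N 4 (.M 202050) (.M 206145))) (.N 3 (.N 4 (.M 136515) (.M 144705)) (.N 4 (.M 83250) (.M 344865)))))) (.b 127 (.N 0 (.N 1 (.N 2 (.N 3 (.N 4 (.W 205125) (.W 205125)) (.N 4 (.W 3154260) (.W 3154260))) (.N 3 (.N 4 (.W 2109780) (.W 2109780)) (.N 4 (.W 1066290) (.W 3297300)))) (.N 2 (.N 3 (.N 4 (.W 1061460) (.W 1061460)) (.N 4 (.W 2114865) (.W 3231780))) (.N 3 (.N 4 (.W 3163425) (.W 2183220)) (.N 4 (.W 205125) (.C 4 36343849296))))) (.N 1 (.N 2 (.N 3 (.N 4 (.W 5517840) (.W 3282240)) (.N 4 (.W 3428880) (.W 3490320))) (.N 3 (.N 4 (.W 2380560) (.W 2442000)) (.N 4 (.W 3294480) (.W 3282240)))) (.N 2 (.N 3 (.N 4 (.W 1332000) (.W 1393440)) (.N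 4 (.W 3228960) (.W 3220800))) (.N 3 (.N 4 (.W 2180400) (.W 2176320)) (.C 7 36343984656))))) (.b 78 (.N 0 (.N 1 (.N 2 (.N 3 (.N 4 (.M 4399365) (.M 3293265)) (.N 4 (.M 4337745) (.M 4395600))) (.N 3 (.N 4 (.M 4411680) (.M 1245780)) (.N 4 (.M 1311315) (.M 4396290)))) (.N 2 (.N 3 (.N 4 (.M 4396320) (.M 3231810)) (.N 4 (.M 4280370) (.M 2179920))) (.N 3 (.N 4 (.M 2114385) (.W 274770)) (.N 4 (.W 213330) (.M 4400385))))) (.N 1 (.N 2 (.N 3 (.N 4 (.M 1393410) (.M 3280980)) (.N 4 (.M 4329555) (.W 82770))) (.N 3 (.N 4 (.M 5308995) (.W 147765)) (.N 4 (.W 143685) (.M 4395600)))) (.N 2 (.N 3 (.N 4 (.M 5378115) (.M 1253460)) (.N 4 (.M 1318995) (.M 4399440))) (.N 3 (.N 4 (.W 5374275) (.M 3219540)) (.N 4 (.M 4268115) (.M 4391250)))))) .e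
  .e)
  .e)
  (.b 180 (.N 0 (.N 1 (.N 2 (.N 3 (.N 4 (.M 4399440) (.M 1393440)) (.N 4 (.W 2297940) (.M 1254720))) (.N 3 (.N 4 (.W 3280980) (.M 1193280)) (.N 4 (.W 3293445) (.M 4526880)))) (.N 2 (.N 3 (.N 4 (.M 5509920) (.M 3490320)) (.N 4 (.M 4273440) (.W 5443650))) (.N 3 (.N 4 (.M 4269360) (.W 5378115)) (.N 4 (.W 1389120) (.W 5324850))))) (.N 1 (.N 2 (.N 3 (.N 4 (.M 4400385) (.M 5309220)) (.N 4 (.M 4261155) (.W 5505555))) (.N 3 (.N 4 (.M 4261170) (.W 5505810)) (.N 4 (.W 3282240) (.M 340545)))) (.N 2 (.N 3 (.N 4 (.M 4522290) (.W 1332000)) (.N 4 (.W 1384515) (.M 144660))) (.N 3 (.N 4 (.W 1388610) (.M 206100)) (.N 4 (.W 1389120) (.W 1065765)))))) .e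
  .e))
  (.b 236 (.N 0 (.N 1 (.N 2 (.N 3 (.N 4 (.M 4399365) (.M 5448720)) (.N 4 (.M 5509920) (.M 2183235))) (.N 3 (.N 4 (.M 5505585) (.M 3166530)) (.N 4 (.W 2314500) (.M 1069860)))) (.N 2 (.N 3 (.N 4 (.M 5439810) (.W 1331715)) (.N 4 (.M 4215345) (.M 2118675))) (.N 3 (.N 4 (.W 1201200) (.W 2380080)) (.N 4 (.W 1266240) (.W 5455905))))) (.N 1 (.N 2 (.N 3 (.N 4 (.M 5378115) (.W 283410)) (.N 4 (.W 218145) (.W 3428385))) (.N 3 (.N 4 (.M 4281120) (.M 3232770)) (.N 4 (.W 152385) (.W 5390640)))) (.N 2 (.N 3 (.N 4 (.M 3298320) (.W 87090)) (.N 4 (.M 4346625) (.W 5321280))) (.N 3 (.N 4 (.M 4411920) (.W 5251905)) (.N 4 (.W 5248050) (.W 1196805)))))) (.b 235 (.N 0 (.N 1 (.N 2 (.N 3 (.N 4 (.M 4399365) (.W 82725)) (.N 4 (.W 144405) (.W 5455905))) (.N 3 (.N 4 (.W 205845) (.W 5390385)) (.N 4 (.W 3277845) (.W 3278145)))) (.N 2 (.N 3 (.N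 4 (.W 267045) (.W 4260645)) (.N 4 (.W 5320770) (.W 4261170))) (.N 3 (.N 4 (.W 5316675) (.W 4261155)) (.N 4 (.W 3278100) (.M 4399440))))) (.N 1 (.N 2 (.N 3 (.N 4 (.M 5260065) (.W 4400400)) (.N 4 (.W 3413280) (.W 1201200))) (.N 3 (.N 4 (.W 2364720) (.W 1266720)) (.N 4 (.W 5448720) (.W 5509920)))) (.N 2 (.N 3 (.N 4 (.W 1254720) (.W 5509920)) (.N 4 (.W 2380560) (.W 5448720))) (.N 3 (.N 4 (.W 3428880) (.W 5387280)) (.N 4 (.W 5325600) (.W 3293520)))))) .e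
  .e)
  (.b 286 (.N 0 (.N 1 (.N 2 (.N 3 (.N 4 (.M 4399365) (.M 1070130)) (.N 4 (.M 4526130) (.M 4526130))) (.N 3 (.N 4 (.M 1061460) (.W 3212610)) (.N 4 (.M 4526130) (.M 1069620)))) (.N 2 (.N 3 (.N 4 (.M 5513520) (.W 1200960)) (.N 4 (.W 2114865) (.M 267570))) (.N 3 (.N 4 (.M 3408405) (.M 3481860)) (.N 4 (.M 4346115) (.W 5251860))))) (.N 1 (.N 2 (.N 3 (.N 4 (.M 5513265) (.W 152385)) (.N 4 (.W 2180400) (.M 1312050))) (.N 3 (.N 4 (.M 3412485) (.M 3481620)) (.N 4 (.M 4345875) (.W 5317380)))) (.N 2 (.N 3 (.N 4 (.M 5456130) (.M 3428880)) (.N 4 (.M 2437380) (.W 2380035))) (.N 3 (.N 4 (.M 4534530) (.W 4411920)) (.N 4 (.W 5448720) (.W 4337925)))))) .e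
  .e)))
  (.b 769 (.N 2 (.N 3 (.N 4 (.D 1 36343850256) (.N 0 (.N 1 (.D 4 36343984656) (.M 3280980)) (.N 1 (.M 3277140) (.M 5517840)))) (.N 0 (.N 1 (.N 4 (.W 1061970) (.M 2437380)) (.N 4 (.M 1324320) (.M 2359605))) (.N 1 (.N 4 (.M 275745) (.M 2363445)) (.N 4 (.M 4530435) (.W 5456130))))) (.N 0 (.N 1 (.N 3 (.N 4 (.W 1057875) (.M 3481860)) (.N 4 (.W 3490320) (.W 3298320))) (.N 3 (.N 4 (.M 1320240) (.M 3408165)) (.N 4 (.M 3277125) (.W 5255745)))) (.N 1 (.N 3 (.N 4 (.M 271665) (.M 3412005)) (.N 4 (.M 3280965) (.W 5321280))) (.N 3 (.N 4 (.M 4534530) (.W 5390595)) (.N 4 (.W 4399365) (.W 4260645)))))) (.b 744 (.N 0 (.N 1 (.N 2 (.N 3 (.N 4 (.W 214305) (.M 148305)) (.N 4 (.M 78930) (.M 2183235))) (.N 3 (.N 4 (.M 1331715) (.M 2184240)) (.N 4 (.W 3163425) (.M 1201200)))) (.N 2 (.N 3 (.N 4 (.M 2314500) (.W 4207890)) (.N 4 (.M 1200960)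 (.M 2184000))) (.N 3 (.N 4 (.W 3408405) (.W 2438160)) (.N 4 (.W 1393440) (.W 5456400))))) (.N 1 (.N 2 (.N 3 (.N 4 (.M 5379120) (.W 4411920)) (.N 4 (.W 3428640) (.W 3428385))) (.N 3 (.N 4 (.M 4530480) (.M 1058100)) (.N 4 (.W 4411680) (.W 266835)))) (.N 2 (.N 3 (.N 4 (.M 3478080) (.W 3428880)) (.N 4 (.M 2102595) (.W 205140))) (.N 3 (.N 4 (.M 2163765) (.W 4346625)) (.N 4 (.W 3232770) (.M 136515)))))) (.b 672 (.N 0 (.N 1 (.N 2 (.N 3 (.N 4 (.W 3416400) (.M 5321280)) (.N 4 (.M 5390640) (.W 5455905))) (.N 3 (.N 4 (.M 3417360) (.M 1197360)) (.N 4 (.M 3228960) (.W 5444610)))) (.N 2 (.N 3 (.N 4 (.M 4396320) (.M 4338960)) (.N 4 (.M 2176320) (.W 5513985))) (.N 3 (.N 4 (.M 5517840) (.M 5509920)) (.N 4 (.M 5448720) (.W 3428385))))) (.N 1 (.N 2 (.N 3 (.N 4 (.W 5256225) (.M 1389600)) (.N 4 (.M 2442000) (.M 2164035))) (.N 3 (.N 4 (.M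 5517840) (.M 1070130)) (.N 4 (.M 332835) (.W 5513475)))) (.N 2 (.N 3 (.N 4 (.M 5456160) (.M 336660)) (.N 4 (.M 2118465) (.W 5444100))) (.N 3 (.N 4 (.M 275745) (.M 3155265)) (.N 4 (.M 4199730) (.M 2164035)))))) (.b 511 (.N 3 (.N 0 (.N 1 (.N 2 (.N 4 (.M 4399365) (.W 4329555)) (.N 4 (.W 1070130) (.W 1061970))) (.N 2 (.N 4 (.W 2118705) (.W 2110545)) (.N 4 (.W 275745) (.M 3489825)))) (.N 1 (.N 2 (.N 4 (.W 2184240) (.W 2176080)) (.N 4 (.W 1324320) (.M 3490080))) (.N 2 (.N 4 (.W 2372880) (.M 3490320)) (.C 1 36344967696)))) (.N 4 (.N 0 (.N 1 (.N 2 (.W 3280980) (.W 1065810)) (.N 2 (.W 2114385) (.M 4534305))) (.N 1 (.N 2 (.W 2179920) (.M 4534560)) (.N 2 (.M 4534800) (.C 1 36344967696)))) (.C 4 36344827971))) .e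
  .e)
  .e)
  (.b 768 (.N 2 (.N 3 (.N 4 (.D 1 36343850256) (.N 0 (.N 1 (.D 7 36343984656) (.M 3297600)) (.N 1 (.M 3297345) (.M 3280980)))) (.N 0 (.N 1 (.N 4 (.W 3428880) (.M 2438160)) (.N 4 (.M 3490320) (.W 3428385))) (.N 1 (.N 4 (.M 3490305) (.W 3428640)) (.N 4 (.M 1065525) (.M 3298320))))) (.N 0 (.N 1 (.N 3 (.N 4 (.W 2380560) (.M 3482640)) (.N 4 (.M 5517840) (.M 5517840))) (.N 3 (.N 4 (.M 2442000) (.W 2379825)) (.N 4 (.M 1332000) (.M 1393440)))) (.N 1 (.N 3 (.N 4 (.M 2441985) (.W 2380080)) (.N 4 (.M 283425) (.M 344865))) (.N 3 (.N 4 (.M 1065765) (.M 2315280)) (.N 4 (.M 3294480) (.M 1066290)))))) .e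
  .e))
  (.b 800 (.N 2 (.N 3 (.N 4 (.D 1 36343850256) (.N 0 (.N 1 (.M 5448720) (.M 4281120)) (.N 1 (.M 4215585) (.M 4526130)))) (.N 0 (.N 1 (.N 4 (.M 5514000) (.M 4411920)) (.N 4 (.M 3232800) (.W 4396290))) (.N 1 (.N 4 (.M 3167265) (.W 4392210)) (.N 4 (.M 3477570) (.W 4411920))))) (.N 0 (.N 1 (.N 3 (.N 4 (.M 5517840) (.M 4346640)) (.N 4 (.M 3298320) (.W 5517840))) (.N 3 (.N 4 (.M 2184240) (.W 4330755)) (.N 4 (.W 3282180) (.W 5517840)))) (.N 1 (.N 3 (.N 4 (.M 2118705) (.W 4326675)) (.N 4 (.W 3278100) (.W 5517825))) (.N 3 (.N 4 (.M 2428995) (.W 4346640)) (.N 4 (.W 3298320) (.W 1065765)))))) (.b 780 (.N 0 (.N 1 (.N 2 (.N 3 (.N 4 (.M 4399365) (.M 5448720)) (.N 4 (.M 5251395) (.M 201300))) (.N 3 (.N 4 (.M 5320770) (.M 1180500)) (.N 4 (.M 1070130) (.W 5514000)))) (.N 2 (.N 3 (.N 4 (.M 3220560) (.M 5374740)) (.N 4 (.M 136020)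 (.M 3280980))) (.N 3 (.N 4 (.M 3278100) (.W 5378100)) (.N 4 (.W 3408165) (.W 3481620))))) (.N 1 (.N 2 (.N 3 (.N 4 (.M 2110545) (.M 5444100)) (.N 4 (.M 2299140) (.W 5439780))) (.N 3 (.N 4 (.M 1245780) (.M 2294100)) (.N 4 (.W 2363445) (.W 2437380)))) (.N 2 (.N 3 (.N 4 (.M 5448720) (.W 4530960)) (.N 4 (.W 3474450) (.M 2315280))) (.N 3 (.N 4 (.W 2429955) (.M 3298305)) (.N 4 (.W 4338960) (.W 82725)))))) .e
  .e)
  (.b 948 (.N 1 (.N 0 (.N 2 (.N 3 (.N 4 (.W 4399440) (.W 4399440)) (.N 4 (.W 3416400) (.W 4411425))) (.N 3 (.N 4 (.W 2371920) (.W 4345905)) (.N 4 (.W 3297345) (.M 5325600)))) (.N 2 (.N 3 (.N 4 (.W 5260065) (.W 4399440)) (.N 4 (.W 3416400) (.W 2183235))) (.N 3 (.N 4 (.W 2371920) (.W 3231810)) (.N 4 (.W 4280370) (.W 5517825))))) (.N 2 (.N 0 (.N 3 (.N 4 (.W 1323600) (.W 4280370)) (.N 4 (.W 3231810) (.M 5391120))) (.N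 3 (.N 4 (.W 1323600) (.W 3297345)) (.N 4 (.W 4345905) (.W 5517570)))) (.N 3 (.N 0 (.N 4 (.W 2183235) (.M 5456400)) (.N 4 (.W 4411425) (.W 5513475))) (.N 4 (.N 0 (.M 5517840) (.W 5447940)) (.C 7 36339794721))))) .e
  .e))))

def b5 : Bt := c5_0

end Pool.Agent.V11120.K9
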