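import Mathlib
import Pool.Agent.V11120.K9.Data7
import Pool.Agent.V11120.K9.Data8

set_option autoImplicit false

namespace Pool.Agent.V11120.K9

lemma c7 : chk tyl 7 P8 F8 b8.mem P7 b7 = true := by decide +kernel

end Pool.Agent.V11120.K9
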