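import Mathlib
import Pool.Agent.V11120.K9.Data8

set_option autoImplicit false

namespace Pool.Agent.V11120.K9

lemma c8 : chk tyl 8 P9 F9 (fun _ => false) P8 b8 = true := by decide +kernel

end Pool.Agent.V11120.K9
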