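import Mathlib
import Pool.Agent.V11120.K9.Data1
import Pool.Agent.V11120.K9.Data2
import Pool.Agent.V11120.K9.Data3
import Pool.Agent.V11120.K9.Data4
import Pool.Agent.V11120.K9.Data5
import Pool.Agent.V11120.K9.Data6
import Pool.Agent.V11120.K9.M7
import Pool.Agent.V11120.K9.M8

set_option autoImplicit false

namespace Pool.Agent.V11120.K9

lemma c1 : chk tyl 1 P2 F2 b2.mem P1 b1 = true := by decide +kernel
lemma c2 : chk tyl 2 P3 F3 b3.mem P2 b2 = true := by decide +kernel
lemma c3 : chk tyl 3 P4 F4 b4.mem P3 b3 = true := by decide +kernel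
lemma c4 : chk tyl 4 P5 F5 b5.mem P4 b4 = true := by decide +kernel
lemma c5 : chk tyl 5 P6 F6 b6.mem P5 b5 = true := by decide +kernel
lemma c6 : chk tyl 6 P7 F7 b7.mem P6 b6 = true := by decide +kernel

def fullOK (m F : ℕ) : Bool :=
  (List.range m).all (fun a => (List.range m).all (fun b => a == b || F.testBit (9 * a + b)))

lemma fullOK_spec {m F : ℕ} (h : fullOK m F = true) :
    ∀ a, a < m → ∀ b, b < m → a ≠ b → F.testBit (9 * a + b) = true := by
  intro a ha b hb hab
  simp only [fullOK, List.all_eq_true, List.mem_range, Bool.or_eq_true, beq_iff_eq] at h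
  rcases h a ha b hb with h1 | h1
  · exact absurd h1 hab
  · exact h1

def pOK (m : ℕ) (P : List (ℕ × ℕ)) : Bool :=
  P.all (fun x => decide (x.1 < m) && (decide (x.2 < m) && !(x.1 == x.2)))

lemma pOK_spec {m : ℕ} {P : List (ℕ × ℕ)} (h : pOK m P = true) :
    ∀ x ∈ P, x.1 < m ∧ x.2 < m ∧ x.1 ≠ x.2 := by
  intro x hx
  simp only [pOK, List.all_eq_true, Bool.and_eq_true, decide_eq_true_eq, Bool.not_eq_true',
    beq_eq_false_iff_ne] at h
  exact h x hx

lemma pOK_9 {m : ℕ} {P : List (ℕ × ℕ)} (h : pOK m P = true) (hm : m ≤ 9) :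
    ∀ x ∈ P, x.1 < 9 ∧ x.2 < 9 := by
  intro x hx
  obtain ⟨h1, h2, -⟩ := pOK_spec h x hx
  exact ⟨by omega, by omega⟩

/-- The edges of `K_9` cannot be drawn on two planes without crossings. -/
theorem no_good : ¬ ∃ col, Good col := by
  rintro ⟨col, hg⟩
  have s1 : ∃ col, Good col ∧ b1.mem (enc col P1) = true := ⟨col, hg, by
    have : enc col P1 = 0 := rfl
    rw [this]; decide⟩
  have q : ∀ {n : ℕ} {P Q : List (ℕ × ℕ)} {full : ℕ} {mem : ℕ → Bool} {t : Bt}, n + 1 ≤ 9 →
      pOK (n + 1) P = true → pOK n Q = true → fullOK (n + 1) full = true →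
      chk tyl n P full mem Q t = true → (∃ col, Good col ∧ t.mem (enc col Q) = true) →
      ∃ col, Good col ∧ mem (enc col P) = true := by
    intro n P Q full mem t hn hP hQ hf hc h
    exact step tyl_nonPl tyl_9 hn (pOK_spec hP) (pOK_9 hQ (by omega)) (fullOK_spec hf) hc h
  have s2 := q (by norm_num) (by decide) (by decide) (by decide) c1 s1
  have s3 := q (by norm_num) (by decide) (by decide) (by decide +kernel) c2 s2
  have s4 := q (by norm_num) (by decide) (by decide) (by decide +kernel) c3 s3
  have s5 := q (by norm_num) (by decide +kernel) (by decide +kernel) (by decide +kernel) c4 s4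
  have s6 := q (by norm_num) (by decide +kernel) (by decide +kernel) (by decide +kernel) c5 s5
  have s7 := q (by norm_num) (by decide +kernel) (by decide +kernel) (by decide +kernel) c6 s6
  have s8 := q (by norm_num) (by decide +kernel) (by decide +kernel) (by decide +kernel) c7 s7
  obtain ⟨-, -, h⟩ := q (by norm_num) (by decide +kernel) (by decide +kernel) (by decide +kernel) c8 s8
  exact Bool.noConfusion h

end Pool.Agent.V11120.K9
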