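import Mathlib
import Pool.Agent.V11120.K9.Main
import Pool.Agent.V11120.K9.Draw

set_option autoImplicit false

namespace Pool.Agent.V11120.K9

open Set

/-- the index of a vertex -/
def fz (a : ℕ) : Fin 9 := if h : a < 9 then ⟨a, h⟩ else 0

lemma fz_val {a : ℕ} (h : a < 9) : (fz a).val = a := by simp [fz, h]

lemma fz_fin (a : Fin 9) : fz a.val = a := by
  apply Fin.ext; rw [fz_val a.isLt]

lemma fz_inj {a b : ℕ} (ha : a < 9) (hb : b < 9) (h : fz a = fz b) : a = b := by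
  have := congrArg Fin.val h
  rwa [fz_val ha, fz_val hb] at this

abbrev Tup := Fin 2 × Fin 9 × Fin 9 × Fin 9 × Fin 9 × ℂ

/-- the crossings as they are counted in the frozen statement -/
def X (c : Fin 9 → Fin 9 → Fin 2) (γ : Fin 2 → Fin 9 → Fin 9 → ℝ → ℂ) : Set Tup :=
  {x | (⊤ : SimpleGraph (Fin 9)).Adj x.2.1 x.2.2.1 ∧
    (⊤ : SimpleGraph (Fin 9)).Adj x.2.2.2.1 x.2.2.2.2.1 ∧
    c x.2.1 x.2.2.1 = x.1 ∧ c x.2.2.2.1 x.2.2.2.2.1 = x.1 ∧
    ¬ (x.2.1 = x.2.2.2.1 ∧ x.2.2.1 = x.2.2.2.2.1) ∧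
    ¬ (x.2.1 = x.2.2.2.2.1 ∧ x.2.2.1 = x.2.2.2.1) ∧
    (∃ t : ℝ, 0 < t ∧ t < 1 ∧ γ x.1 x.2.1 x.2.2.1 t = x.2.2.2.2.2) ∧
    (∃ t : ℝ, 0 < t ∧ t < 1 ∧ γ x.1 x.2.2.2.1 x.2.2.2.2.1 t = x.2.2.2.2.2)}

/-- the conditions on a drawing on two planes -/
def Dr (c : Fin 9 → Fin 9 → Fin 2) (p : Fin 2 → Fin 9 → ℂ) (γ : Fin 2 → Fin 9 → Fin 9 → ℝ → ℂ) :
    Prop :=
  ((∀ u v : Fin 9, (⊤ : SimpleGraph (Fin 9)).Adj u v → c u v = c v u) ∧
    (∀ i : Fin 2, Function.Injective (p i)) ∧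
    (∀ i : Fin 2, ∀ u v : Fin 9, (⊤ : SimpleGraph (Fin 9)).Adj u v → c u v = i →
      ContinuousOn (γ i u v) (Set.Icc (0:ℝ) 1) ∧
      Set.InjOn (γ i u v) (Set.Icc (0:ℝ) 1) ∧
      γ i u v 0 = p i u ∧ γ i u v 1 = p i v ∧
      (∀ t : ℝ, 0 ≤ t → t ≤ 1 → γ i v u t = γ i u v (1 - t)) ∧
      ∀ t : ℝ, 0 < t → t < 1 → ∀ w : Fin 9, γ i u v t ≠ p i w) ∧
    Set.Finite (X c γ))

lemma X_sub : X cc gg ⊆ ↑(S8.toFinset.image (fun q => ((q.1, q.2.1, q.2.2.1, q.2.2.2.1, q.2.2.2.2, x0) : Tup))) := by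
  rintro ⟨i, a, b, u, v, x⟩ ⟨h1, h2, h3, h4, h5, h6, h7, h8⟩
  obtain ⟨h9, h10⟩ := cross_form i a b u v h1 h2 h3 h4 h5 h6 x h7 h8
  rw [Finset.coe_image, Set.mem_image]
  refine ⟨(i, a, b, u, v), by simpa using h9, ?_⟩
  have h10' : x = x0 := h10
  rw [h10']

lemma X_card : (X cc gg).ncard ≤ 8 := by
  refine (Set.ncard_le_ncard X_sub (Finset.finite_toSet _)).trans ?_
  rw [Set.ncard_coe_finset]
  refine Finset.card_image_le.trans ?_
  exact (List.toFinset_card_le S8).trans (by decide)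

lemma dr_gg : Dr cc pp gg := by
  refine ⟨fun u v _ => cc_symm u v, pp_inj, ?_, (Finset.finite_toSet _).subset X_sub⟩
  intro i u v huv _
  refine ⟨(gg_cont i u v).continuousOn, ?_, gg_zero i u v, gg_one i u v, fun t _ _ => gg_rev i u v t,
    fun t h0 h1 w => gg_av i u v huv t h0 h1 w⟩
  intro s _ t _ h
  exact gg_inj i u v huv s t h

variable {c : Fin 9 → Fin 9 → Fin 2} {p : Fin 2 → Fin 9 → ℂ} {γ : Fin 2 → Fin 9 → Fin 9 → ℝ → ℂ}

lemma col_symm (h : Dr c p γ) (u v : Fin 9) : c u v = c v u := by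
  by_cases huv : u = v
  · rw [huv]
  · exact h.1 u v huv

/-- a plane without crossings -/
lemma pl_of_empty (h : Dr c p γ) (i : Fin 2) (hi : ∀ x ∈ X c γ, x.1 ≠ i) :
    Pl (fun a b => c (fz a) (fz b) = i) := by
  have hne : ∀ a b : ℕ, a < 9 → b < 9 → a ≠ b → (⊤ : SimpleGraph (Fin 9)).Adj (fz a) (fz b) :=
    fun a b ha hb hab h' => hab (fz_inj ha hb h')
  refine ⟨fun a => p i (fz a), fun a b => γ i (fz a) (fz b), ?_, ?_, ?_, ?_, ?_, ?_⟩
  · intro a b ha hb hab; exact fz_inj ha hb (h.2.1 i hab)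
  · intro a b ha hb hab hE; exact (h.2.2.1 i _ _ (hne a b ha hb hab) hE).1
  · intro a b ha hb hab hE; exact (h.2.2.1 i _ _ (hne a b ha hb hab) hE).2.2.1
  · intro a b ha hb hab hE; exact (h.2.2.1 i _ _ (hne a b ha hb hab) hE).2.2.2.1
  · intro a b ha hb hab hE t ht w _
    exact (h.2.2.1 i _ _ (hne a b ha hb hab) hE).2.2.2.2.2 t ht.1 ht.2 (fz w)
  · intro a b u v ha hb hu hv hab huv hE hE' h1 h2 s hs t ht he
    refine hi (i, fz a, fz b, fz u, fz v, γ i (fz a) (fz b) s) ?_ rfl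
    refine ⟨hne a b ha hb hab, hne u v hu hv huv, hE, hE', ?_, ?_, ⟨s, hs.1, hs.2, rfl⟩,
      ⟨t, ht.1, ht.2, he.symm⟩⟩
    · rintro ⟨h3, h4⟩; exact h1 ⟨fz_inj ha hu h3, fz_inj hb hv h4⟩
    · rintro ⟨h3, h4⟩; exact h2 ⟨fz_inj ha hv h3, fz_inj hb hu h4⟩

def eight (u v w z : Fin 9) : Finset (Fin 9 × Fin 9 × Fin 9 × Fin 9) :=
  {(u, v, w, z), (v, u, w, z), (u, v, z, w), (v, u, z, w), (w, z, u, v), (w, z, v, u), (z, w, u, v),
    (z, w, v, u)}

lemma card_eight (u v w z : Fin 9) (h1 : u ≠ v) (h2 : w ≠ z) (h3 : ¬ (u = w ∧ v = z))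
    (h4 : ¬ (u = z ∧ v = w)) : (eight u v w z).card = 8 := by
  have h1' := h1.symm
  have h2' := h2.symm
  unfold eight
  rw [Finset.card_insert_of_notMem, Finset.card_insert_of_notMem, Finset.card_insert_of_notMem,
    Finset.card_insert_of_notMem, Finset.card_insert_of_notMem, Finset.card_insert_of_notMem,
    Finset.card_insert_of_notMem, Finset.card_singleton] <;>
  (simp only [Finset.mem_insert, Finset.mem_singleton, Prod.mk.injEq, not_or]
   try refine ⟨?_, ?_⟩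
   all_goals tauto)

lemma rev_mem (h : Dr c p γ) {i : Fin 2} {u v : Fin 9} (huv : u ≠ v) (hc : c u v = i) {x : ℂ}
    (hx : ∃ t : ℝ, 0 < t ∧ t < 1 ∧ γ i u v t = x) : ∃ t : ℝ, 0 < t ∧ t < 1 ∧ γ i v u t = x := by
  obtain ⟨t, h0, h1, ht⟩ := hx
  refine ⟨1 - t, by linarith, by linarith, ?_⟩
  rw [(h.2.2.1 i u v huv hc).2.2.2.2.1 (1 - t) (by linarith) (by linarith)]
  rw [← ht]; congr 1; ring

lemma variants (h : Dr c p γ) {i : Fin 2} {u v w z : Fin 9} {x : ℂ} (hx : (i, u, v, w, z, x) ∈ X c γ)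
    (q : Fin 9 × Fin 9 × Fin 9 × Fin 9) (hq : q ∈ eight u v w z) :
    ((i, q.1, q.2.1, q.2.2.1, q.2.2.2, x) : Tup) ∈ X c γ := by
  obtain ⟨h1, h2, h3, h4, h5, h6, h7, h8⟩ := hx
  have h1' : u ≠ v := h1
  have h2' : w ≠ z := h2
  have h3' : c u v = i := h3
  have h4' : c w z = i := h4
  have h3s : c v u = i := (col_symm h v u).trans h3'
  have h4s : c z w = i := (col_symm h z w).trans h4'
  have h7r := rev_mem h h1' h3' h7
  have h8r := rev_mem h h2' h4' h8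
  have h5' : ¬ (u = w ∧ v = z) := h5
  have h6' : ¬ (u = z ∧ v = w) := h6
  simp only [eight, Finset.mem_insert, Finset.mem_singleton] at hq
  rcases hq with rfl | rfl | rfl | rfl | rfl | rfl | rfl | rfl
  · exact ⟨h1', h2', h3', h4', by tauto, by tauto, h7, h8⟩
  · exact ⟨h1'.symm, h2', h3s, h4', by tauto, by tauto, h7r, h8⟩
  · exact ⟨h1', h2'.symm, h3', h4s, by tauto, by tauto, h7, h8r⟩
  · exact ⟨h1'.symm, h2'.symm, h3s, h4s, by tauto, by tauto, h7r, h8r⟩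
  · exact ⟨h2', h1', h4', h3', fun hh => h5' ⟨hh.1.symm, hh.2.symm⟩, fun hh => h6' ⟨hh.2.symm, hh.1.symm⟩, h8, h7⟩
  · exact ⟨h2', h1'.symm, h4', h3s, fun hh => h6' ⟨hh.2.symm, hh.1.symm⟩, fun hh => h5' ⟨hh.1.symm, hh.2.symm⟩, h8, h7r⟩
  · exact ⟨h2'.symm, h1', h4s, h3', fun hh => h6' ⟨hh.1.symm, hh.2.symm⟩, fun hh => h5' ⟨hh.2.symm, hh.1.symm⟩, h8r, h7⟩
  · exact ⟨h2'.symm, h1'.symm, h4s, h3s, fun hh => h5' ⟨hh.2.symm, hh.1.symm⟩, fun hh => h6' ⟨hh.1.symm, hh.2.symm⟩, h8r, h7r⟩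

/-- the eight tuples of one crossing -/
noncomputable def fam (i : Fin 2) (u v w z : Fin 9) (x : ℂ) : Finset Tup := by
  classical
  exact (eight u v w z).image (fun q => (i, q.1, q.2.1, q.2.2.1, q.2.2.2, x))

lemma fam_card {i : Fin 2} {u v w z : Fin 9} {x : ℂ} (hx : (i, u, v, w, z, x) ∈ X c γ) :
    (fam i u v w z x).card = 8 := by
  classical
  unfold fam
  rw [Finset.card_image_of_injective]
  · exact card_eight u v w z hx.1 hx.2.1 hx.2.2.2.2.1 hx.2.2.2.2.2.1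
  · rintro ⟨a, b, c, d⟩ ⟨a', b', c', d'⟩ hq
    simp only [Prod.mk.injEq, and_true, true_and] at hq
    simp only [Prod.mk.injEq]
    exact hq

lemma fam_sub (h : Dr c p γ) {i : Fin 2} {u v w z : Fin 9} {x : ℂ} (hx : (i, u, v, w, z, x) ∈ X c γ) :
    ∀ y ∈ fam i u v w z x, y ∈ X c γ ∧ y.1 = i := by
  classical
  intro y hy
  unfold fam at hy
  obtain ⟨q, hq, rfl⟩ := Finset.mem_image.mp hy
  exact ⟨variants h hx q hq, rfl⟩

lemma sixteen (h : Dr c p γ) {x y : Tup} (hx : x ∈ X c γ) (hy : y ∈ X c γ) (h0 : x.1 = 0)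
    (h1 : y.1 = 1) : 16 ≤ (X c γ).ncard := by
  classical
  obtain ⟨i, u, v, w, z, x⟩ := x
  obtain ⟨j, u', v', w', z', y⟩ := y
  have hi : i = 0 := h0
  have hj : j = 1 := h1
  have hd : Disjoint (fam i u v w z x) (fam j u' v' w' z' y) := by
    rw [Finset.disjoint_left]
    intro a ha hb
    have e1 := (fam_sub h hx a ha).2
    have e2 := (fam_sub h hy a hb).2
    rw [e1, hi, hj] at e2
    exact absurd e2 (by decide)
  have hcard : (fam i u v w z x ∪ fam j u' v' w' z' y).card = 16 := by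
    rw [Finset.card_union_of_disjoint hd, fam_card hx, fam_card hy]
  rw [← hcard, ← Set.ncard_coe_finset]
  refine Set.ncard_le_ncard ?_ h.2.2.2
  intro a ha
  rcases Finset.mem_union.mp (Finset.mem_coe.mp ha) with h2 | h2
  · exact (fam_sub h hx a h2).1
  · exact (fam_sub h hy a h2).1

/-- transport of a plane drawing along an isomorphism of the colour classes -/
lemma pl_transport (h : Dr c p γ) (i j : Fin 2)
    (e : Fin 9 ≃ Fin 9) (he : ∀ u v : Fin 9, u ≠ v → c u v = j → c (e u) (e v) = i)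
    (hi : Pl (fun a b => c (fz a) (fz b) = i)) : Pl (fun a b => c (fz a) (fz b) = j) := by
  have h1 := hi.comp (fun a => (e (fz a)).val) (fun a _ => (e (fz a)).isLt) (fun a b ha hb hab => by
    have : e (fz a) = e (fz b) := Fin.ext hab
    exact fz_inj ha hb (e.injective this))
  refine h1.mono ?_
  intro a b ha hb hab hE
  show c (fz (e (fz a)).val) (fz (e (fz b)).val) = i
  rw [fz_fin, fz_fin]
  exact he _ _ (fun h' => hab (fz_inj ha hb h')) hE

theorem main (h : Dr c p γ)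
    (hφ : Nonempty (SimpleGraph.fromRel (fun u v => (⊤ : SimpleGraph (Fin 9)).Adj u v ∧ c u v = 0) ≃g
      SimpleGraph.fromRel (fun u v => (⊤ : SimpleGraph (Fin 9)).Adj u v ∧ c u v = 1)))
    (hmin : (X c γ).ncard ≤ (X cc gg).ncard) : False := by
  obtain ⟨φ⟩ := hφ
  have hadj0 : ∀ u v : Fin 9, u ≠ v → ((SimpleGraph.fromRel
      (fun u v => (⊤ : SimpleGraph (Fin 9)).Adj u v ∧ c u v = 0)).Adj u v ↔ c u v = 0) := by
    intro u v huv
    rw [SimpleGraph.fromRel_adj]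
    constructor
    · rintro ⟨-, h1 | h1⟩
      · exact h1.2
      · rw [col_symm h]; exact h1.2
    · intro h1; exact ⟨huv, Or.inl ⟨huv, h1⟩⟩
  have hadj1 : ∀ u v : Fin 9, u ≠ v → ((SimpleGraph.fromRel
      (fun u v => (⊤ : SimpleGraph (Fin 9)).Adj u v ∧ c u v = 1)).Adj u v ↔ c u v = 1) := by
    intro u v huv
    rw [SimpleGraph.fromRel_adj]
    constructor
    · rintro ⟨-, h1 | h1⟩
      · exact h1.2
      · rw [col_symm h]; exact h1.2
    · intro h1; exact ⟨huv, Or.inl ⟨huv, h1⟩⟩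
  have hboth : Pl (fun a b => c (fz a) (fz b) = 0) ∧ Pl (fun a b => c (fz a) (fz b) = 1) := by
    by_cases hx : ∀ x ∈ X c γ, x.1 ≠ 0
    · have h0 := pl_of_empty h 0 hx
      refine ⟨h0, pl_transport h 0 1 φ.symm.toEquiv ?_ h0⟩
      intro u v huv hc
      have h2 := φ.symm.map_rel_iff.mpr ((hadj1 u v huv).mpr hc)
      exact (hadj0 _ _ (fun h' => huv (φ.symm.toEquiv.injective h'))).mp h2
    · by_cases hy : ∀ y ∈ X c γ, y.1 ≠ 1
      · have h1 := pl_of_empty h 1 hy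
        refine ⟨pl_transport h 1 0 φ.toEquiv ?_ h1, h1⟩
        intro u v huv hc
        have h2 := φ.map_rel_iff.mpr ((hadj0 u v huv).mpr hc)
        exact (hadj1 _ _ (fun h' => huv (φ.toEquiv.injective h'))).mp h2
      · exfalso
        push Not at hx hy
        obtain ⟨x, hx, hx0⟩ := hx
        obtain ⟨y, hy, hy1⟩ := hy
        have h3 := sixteen h hx hy hx0 hy1
        have h4 := X_card
        omega
  refine no_good ⟨fun a b => decide (c (fz a) (fz b) = 1), ?_, ?_⟩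
  · intro a b
    show decide (c (fz a) (fz b) = 1) = decide (c (fz b) (fz a) = 1)
    rw [col_symm h]
  · intro k
    cases k
    · refine hboth.1.mono ?_
      intro a b _ _ _ hab
      have hab' : c (fz a) (fz b) ≠ 1 := by simpa using hab
      have : ∀ q : Fin 2, q ≠ 1 → q = 0 := by decide
      exact this _ hab'
    · refine hboth.2.mono ?_
      intro a b _ _ _ hab
      simpa using hab

lemma even_edges : Even (Set.ncard (⊤ : SimpleGraph (Fin 9)).edgeSet) := by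
  have : Set.ncard (⊤ : SimpleGraph (Fin 9)).edgeSet = 36 := by
    rw [← SimpleGraph.coe_edgeFinset, Set.ncard_coe_finset, SimpleGraph.card_edgeFinset_top_eq_card_choose_two]
    rfl
  rw [this]
  decide

end Pool.Agent.V11120.K9
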